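import Pool.Agent.H72.Rigid.Diag

/-!
# Rigid local algebras: lower bounds for the dimension of `T¹` (helper72)
-/

set_option autoImplicit false

namespace Pool.Agent.H72.Rigid

open Module MvPolynomial Pool.Agent.H12.Rig

variable {K : Type*} [Field K] {n : ℕ}

/-- a finitely generated module killed by a power of `m` is finite dimensional -/
theorem finite_of_killed {M : Type*} [AddCommGroup M] [Module (MvPolynomial (Fin n) K) M]
    [Module K M] [IsScalarTower K (MvPolynomial (Fin n) K) M]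
    [Module.Finite (MvPolynomial (Fin n) K) M] (k : ℕ)
    (hM : ∀ g ∈ mm K n ^ k, ∀ x : M, g • x = 0) : Module.Finite K M := by
  obtain ⟨r, f, hf⟩ := Module.Finite.exists_fin' (MvPolynomial (Fin n) K) M
  let G : (Fin r → T K n k) →ₗ[K] M :=
    f.restrictScalars K ∘ₗ LinearMap.pi fun j => val K n k ∘ₗ LinearMap.proj j
  have hG : ∀ g, G g = f (fun j => val K n k (g j)) := fun g => rfl
  refine Module.Finite.of_surjective G ?_
  intro m
  obtain ⟨p, rfl⟩ := hf m
  choose g hg using fun j => trunc_exists k (p j)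
  refine ⟨g, ?_⟩
  rw [hG, ← sub_eq_zero, ← map_sub, LinearMap.pi_apply_eq_sum_univ]
  refine Finset.sum_eq_zero fun j _ => ?_
  refine hM _ ?_ _
  have h1 := Ideal.neg_mem_iff (mm K n ^ k) |>.2 (Ideal.pow_le_pow_right (Nat.le_succ k) (hg j))
  rwa [neg_sub] at h1

/-- the ideal modulo `m ^ k I` -/
abbrev Qk (I : Ideal (MvPolynomial (Fin n) K)) (k : ℕ) : Type _ :=
  I ⧸ (mm K n ^ k • (⊤ : Submodule (MvPolynomial (Fin n) K) I))

theorem Qk_killed (I : Ideal (MvPolynomial (Fin n) K)) (k : ℕ) (g : MvPolynomial (Fin n) K)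
    (hg : g ∈ mm K n ^ k) (x : Qk I k) : g • x = 0 := by
  obtain ⟨f, rfl⟩ := Submodule.mkQ_surjective _ x
  rw [← map_smul, Submodule.mkQ_apply, Submodule.Quotient.mk_eq_zero]
  exact Submodule.smul_mem_smul hg Submodule.mem_top

/-- **A lower bound for the number of linear maps.** -/
theorem hom_ge (I : Ideal (MvPolynomial (Fin n) K))
    [Module.Finite K (MvPolynomial (Fin n) K ⧸ I)] (a b : ℕ) :
    finrank K (Qk I (a + 1)) * finrank K (killed I (b + 1)) ≤
      finrank K (I →ₗ[MvPolynomial (Fin n) K] (MvPolynomial (Fin n) K ⧸ I)) *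
        (n + (a + b)).choose n := by
  have f1 : Module.Finite K (Qk I (a + 1)) := finite_of_killed (a + 1) (Qk_killed I (a + 1))
  have f2 : Module.Finite K (killed I (b + 1)) :=
    Module.Finite.of_injective ((killed I (b + 1)).subtype.restrictScalars K)
      (Submodule.subtype_injective _)
  let E : (Qk I (a + 1) →ₗ[MvPolynomial (Fin n) K] killed I (b + 1)) →ₗ[K]
      (I →ₗ[MvPolynomial (Fin n) K] (MvPolynomial (Fin n) K ⧸ I)) :=
    { toFun := fun ψ => (killed I (b + 1)).subtype ∘ₗ ψ ∘ₗ Submodule.mkQ _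
      map_add' := fun ψ ψ' => rfl
      map_smul' := fun c ψ => rfl }
  have hE : Function.Injective E := by
    intro ψ ψ' h
    refine LinearMap.ext fun x => ?_
    obtain ⟨f, rfl⟩ := Submodule.mkQ_surjective _ x
    exact Subtype.ext (LinearMap.congr_fun h f)
  have f3 : Module.Finite K (Qk I (a + 1) →ₗ[MvPolynomial (Fin n) K] killed I (b + 1)) :=
    Module.Finite.of_injective E hE
  have h1 := finrank_hom_le (K := K) (n := n) (X' := Qk I (a + 1)) (Y' := killed I (b + 1)) a b
    (fun g hg x => Qk_killed I (a + 1) g hg x)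
    (fun g hg y => Subtype.ext ((Submodule.mem_torsionBySet_iff _ _).1 y.2 ⟨g, hg⟩))
  have h2 := LinearMap.finrank_le_finrank_of_injective hE
  have e : b + a = a + b := by omega
  have e2 : (n + (a + b)).choose (a + b) = (n + (a + b)).choose n := by
    rw [Nat.add_comm n (a + b), Nat.choose_symm_add]
  rw [e, e2] at h1
  exact h1.trans (Nat.mul_le_mul_right _ h2)

/-- the number of derivations, first bound -/
theorem range_add_le (I : Ideal (MvPolynomial (Fin n) K))
    [Module.Finite K (MvPolynomial (Fin n) K ⧸ I)] (h2 : I ≤ mm K n ^ 2) :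
    finrank K (LinearMap.range (derHom I)) + n * finrank K (socle I) ≤
      n * finrank K (MvPolynomial (Fin n) K ⧸ I) := by
  have h3 := LinearMap.finrank_range_add_finrank_ker (derHom I)
  rw [Module.finrank_pi_fintype, Finset.sum_const, Finset.card_univ, Fintype.card_fin,
    smul_eq_mul] at h3
  let Ψ : (Fin n → socle I) →ₗ[K] (Fin n → MvPolynomial (Fin n) K ⧸ I) :=
    LinearMap.pi fun i => (socle I).subtype ∘ₗ LinearMap.proj i
  have hΨ : ∀ a i, Ψ a i = (a i : MvPolynomial (Fin n) K ⧸ I) := fun a i => rfl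
  have hker : ∀ a, Ψ a ∈ LinearMap.ker (derHom I) := by
    intro a
    rw [LinearMap.mem_ker]
    refine LinearMap.ext fun f => ?_
    rw [derHom_apply]
    refine Finset.sum_eq_zero fun i _ => ?_
    rw [hΨ, mk_mul_eq_smul, smul_eq_const (a i : MvPolynomial (Fin n) K ⧸ I) (fun j => ?_)]
    · have h4 : pderiv i (f : MvPolynomial (Fin n) K) ∈ mm K n ^ 1 := pderiv_mem (h2 f.2) i
      have h5 : constantCoeff (pderiv i (f : MvPolynomial (Fin n) K)) = 0 := by
        rw [constantCoeff_eq]
        exact mem_mm_pow.1 h4 0 (by simp)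
      rw [h5, zero_smul]
    · rw [← mk_mul_eq_smul]
      exact (a i).2 j
  have hinj : Function.Injective (Ψ.codRestrict _ hker) := by
    intro a b h
    funext i
    have h4 := congrFun (congrArg Subtype.val h) i
    exact Subtype.ext h4
  have h6 := LinearMap.finrank_le_finrank_of_injective hinj
  rw [Module.finrank_pi_fintype, Finset.sum_const, Finset.card_univ, Fintype.card_fin,
    smul_eq_mul] at h6
  omega

theorem range_W_le_killed (I : Ideal (MvPolynomial (Fin n) K)) (s c e : ℕ)
    [Module.Finite K (MvPolynomial (Fin n) K ⧸ I)] (h1 : mm K n ^ (s + 1 + c) ≤ I) :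
    finrank K (LinearMap.range (W I s e)) ≤ finrank K (killed I (c + 1)) := by
  have h2 : LinearMap.range (W I s e) ≤ (killed I (c + 1)).restrictScalars K := by
    rintro _ ⟨h, rfl⟩
    show W I s e h ∈ killed I (c + 1)
    rw [Submodule.mem_torsionBySet_iff]
    rintro ⟨g, hg⟩
    show g • Ideal.Quotient.mk I (uval K n s e h) = 0
    rw [← mk_mul_eq_smul, ← map_mul, Ideal.Quotient.eq_zero_iff_mem]
    refine h1 ?_
    have h5 := Ideal.mul_mem_mul hg (uval_mem s e h)
    rw [← pow_add] at h5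
    have e : c + 1 + s = s + 1 + c := by omega
    rwa [e] at h5
  exact Submodule.finrank_mono h2

theorem ker_W_le_Qk (I : Ideal (MvPolynomial (Fin n) K)) (s c : ℕ)
    (h2 : I ≤ mm K n ^ (s + 1)) :
    finrank K (LinearMap.ker (W I s (c + 2))) ≤ finrank K (Qk I (c + 1)) := by
  have f1 : Module.Finite K (Qk I (c + 1)) := finite_of_killed (c + 1) (Qk_killed I (c + 1))
  have hmem : ∀ h : LinearMap.ker (W I s (c + 2)), uval K n s (c + 2) h ∈ I := by
    intro h
    have h3 : W I s (c + 2) h = 0 := h.2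
    rw [W_apply, Ideal.Quotient.eq_zero_iff_mem] at h3
    exact h3
  let G : LinearMap.ker (W I s (c + 2)) →ₗ[K] I :=
    { toFun := fun h => ⟨uval K n s (c + 2) h, hmem h⟩
      map_add' := fun h h' => by
        ext1
        exact map_add _ _ _
      map_smul' := fun r h => by
        ext1
        exact map_smul _ _ _ }
  let G' : LinearMap.ker (W I s (c + 2)) →ₗ[K] Qk I (c + 1) :=
    (Submodule.mkQ (mm K n ^ (c + 1) •
      (⊤ : Submodule (MvPolynomial (Fin n) K) I))).restrictScalars K ∘ₗ G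
  have key : ∀ h : LinearMap.ker (W I s (c + 2)), G' h = 0 → h = 0 := by
    intro h hh
    have h3 : Submodule.mkQ (mm K n ^ (c + 1) •
      (⊤ : Submodule (MvPolynomial (Fin n) K) I)) (G h) = 0 := hh
    rw [Submodule.mkQ_apply, Submodule.Quotient.mk_eq_zero] at h3
    have h4 : uval K n s (c + 2) h ∈ mm K n ^ (c + 1 + (s + 1)) := by
      have h5 : ((G h : I) : MvPolynomial (Fin n) K) ∈ mm K n ^ (c + 1) * mm K n ^ (s + 1) := by
        refine Submodule.smul_induction_on (p := fun x : I => (x : MvPolynomial (Fin n) K) ∈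
          mm K n ^ (c + 1) * mm K n ^ (s + 1)) h3 ?_ ?_
        · intro r hr m _
          exact Ideal.mul_mem_mul hr (h2 m.2)
        · intro x y hx hy
          exact Ideal.add_mem _ hx hy
      rw [← pow_add] at h5
      exact h5
    ext1
    funext i
    ext1
    have h5 := comp_eq_zero_of_mem (k := s + i) (by omega) h4
    rw [comp_uval] at h5
    exact h5
  have hinj : Function.Injective G' := by
    intro x y hxy
    have e1 : G' (x - y) = G' x - G' y := by
      show Submodule.mkQ (mm K n ^ (c + 1) • (⊤ : Submodule (MvPolynomial (Fin n) K) I))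
          (G (x - y)) = Submodule.mkQ _ (G x) - Submodule.mkQ _ (G y)
      rw [← map_sub]
      congr 1
      ext1
      exact map_sub _ _ _
    have h6 := key (x - y) (by rw [e1, hxy, sub_self])
    exact sub_eq_zero.1 h6
  exact LinearMap.finrank_le_finrank_of_injective hinj

/-- **The inequality for ideals between two powers.** -/
theorem main_ineq' (hn : 1 ≤ n) (I : Ideal (MvPolynomial (Fin n) K)) (s c : ℕ)
    (h1 : mm K n ^ (s + 1 + c) ≤ I) (h2 : I ≤ mm K n ^ (s + 1)) :
    (n + s - 1).choose s *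
        ∑ j : Fin (c + 1), (n + (s + 1 + j) - 1).choose (s + 1 + j) ≤
      (n * (n + c).choose c + finrank K (T1 I)) * (n + (c + c)).choose n := by
  have := quot_finite I h1
  have a1 := hom_ge I c c
  have a2 := range_le I s c h1 h2
  have a3 := ker_W_le_Qk I s c h2
  have a4 := range_W_le_killed I s c (c + 2) h1
  have a5 := le_range_W I s (c + 1) h2
  have a6 := le_ker_W I s (c + 1) (by
    have e : s + (c + 1) = s + 1 + c := by omega
    rwa [e])
  have a7 := LinearMap.finrank_range_add_finrank_ker (W I s (c + 2))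
  rw [finrank_U] at a7
  have a8 : (n + s - 1).choose s ≤ (n + (s + (c + 1)) - 1).choose (s + (c + 1)) :=
    nm_mono hn (by omega)
  rw [Fin.sum_univ_succ] at a7
  have a9 : ∑ i : Fin (c + 1), (n + (s + ((Fin.succ i : Fin (c + 2)) : ℕ)) - 1).choose
      (s + ((Fin.succ i : Fin (c + 2)) : ℕ)) =
      ∑ j : Fin (c + 1), (n + (s + 1 + j) - 1).choose (s + 1 + j) := by
    refine Finset.sum_congr rfl fun j _ => ?_
    have e : s + ((Fin.succ j : Fin (c + 2)) : ℕ) = s + 1 + j := by
      rw [Fin.val_succ]; omega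
    rw [e]
  rw [a9] at a7
  simp only [Fin.val_zero, add_zero] at a7
  have a10 := finrank_T1 I
  set A0 := (n + s - 1).choose s
  set B0 := ∑ j : Fin (c + 1), (n + (s + 1 + j) - 1).choose (s + 1 + j)
  set D1 := finrank K (LinearMap.range (W I s (c + 2)))
  set D2 := finrank K (LinearMap.ker (W I s (c + 2)))
  have b1 : A0 * B0 ≤ D1 * D2 := by
    have a5' : A0 ≤ D1 := a5
    have a6' : A0 ≤ D2 := a8.trans a6
    obtain ⟨x, hx⟩ := Nat.exists_eq_add_of_le a5'
    obtain ⟨y, hy⟩ := Nat.exists_eq_add_of_le a6'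
    have hB : B0 = x + (A0 + y) := by omega
    rw [hB, hx, hy]
    nlinarith [Nat.zero_le (x * y)]
  calc A0 * B0 ≤ D1 * D2 := b1
    _ ≤ finrank K (killed I (c + 1)) * finrank K (Qk I (c + 1)) := Nat.mul_le_mul a4 a3
    _ = finrank K (Qk I (c + 1)) * finrank K (killed I (c + 1)) := mul_comm _ _
    _ ≤ _ := a1
    _ ≤ _ := Nat.mul_le_mul_right _ (by omega)

/-- **The inequalities for all finite local algebras.** -/
theorem general_ineq (I : Ideal (MvPolynomial (Fin n) K))
    [Module.Finite K (MvPolynomial (Fin n) K ⧸ I)] (h2 : I ≤ mm K n ^ 2) (a b : ℕ) :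
    finrank K (Qk I (a + 1)) * finrank K (killed I (b + 1)) ≤
      (finrank K (T1 I) + n * (finrank K (MvPolynomial (Fin n) K ⧸ I) - finrank K (socle I))) *
        (n + (a + b)).choose n := by
  have a1 := hom_ge I a b
  have a2 := range_add_le I h2
  have a3 := finrank_T1 I
  refine a1.trans (Nat.mul_le_mul_right _ ?_)
  rw [← a3]
  have a4 : n * (finrank K (MvPolynomial (Fin n) K ⧸ I) - finrank K (socle I)) =
      n * finrank K (MvPolynomial (Fin n) K ⧸ I) - n * finrank K (socle I) :=
    Nat.mul_sub n _ _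
  omega

theorem mem_killed_one (I : Ideal (MvPolynomial (Fin n) K)) (u : MvPolynomial (Fin n) K ⧸ I) :
    u ∈ killed I 1 ↔ u ∈ socle I := by
  rw [Submodule.mem_torsionBySet_iff, mem_socle]
  constructor
  · intro h i
    rw [mk_mul_eq_smul]
    exact h ⟨X i, by
      rw [pow_one]
      exact Ideal.subset_span ⟨i, rfl⟩⟩
  · rintro h ⟨g, hg⟩
    show g • u = 0
    rw [smul_eq_const u (fun i => by rw [← mk_mul_eq_smul]; exact h i) g, constantCoeff_eq,
      mem_mm_pow.1 hg 0 (by simp), zero_smul]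

theorem finrank_killed_one (I : Ideal (MvPolynomial (Fin n) K)) :
    finrank K (killed I 1) = finrank K (socle I) := by
  have h : (killed I 1).restrictScalars K = socle I := by
    ext u
    exact mem_killed_one I u
  rw [← h]
  rfl

theorem two_socle_le {N : ℕ} (I : Ideal (MvPolynomial (Fin n) K)) (hN : mm K n ^ N ≤ I)
    (h2 : I ≤ mm K n ^ 2) :
    2 * n * finrank K (socle I) ≤
      finrank K (T1 I) + n * finrank K (MvPolynomial (Fin n) K ⧸ I) := by
  have := quot_finite I hN
  have h1 := mul_add_le I h2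
  have h3 := n_le_gens I hN (h2.trans (by
    have h := Ideal.pow_le_pow_right (I := mm K n) (show 1 ≤ 2 by omega)
    rwa [pow_one] at h))
  have h4 : n * finrank K (socle I) ≤ finrank K (Q I) * finrank K (socle I) :=
    Nat.mul_le_mul_right _ h3
  nlinarith

/-- numerical consequence -/
theorem num_ineq (n s c : ℕ) (hn : 2 ≤ n) (hs : 2 ≤ s)
    (h : (n + (s - 1) - 1).choose (s - 1) *
        ∑ j : Fin (c + 1), (n + (s - 1 + 1 + j) - 1).choose (s - 1 + 1 + j) ≤
      (n * (n + c).choose c) * (n + (c + c)).choose n) :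
    n * s ^ (2 * n - 2) < ((n + 1) * (n + 2)) ^ n * c ^ (2 * n - 1) := by
  obtain ⟨m, rfl⟩ : ∃ m, n = m + 1 := ⟨n - 1, by omega⟩
  obtain ⟨t, rfl⟩ : ∃ t, s = t + 1 := ⟨s - 1, by omega⟩
  have e0 : t + 1 - 1 = t := by omega
  rw [e0] at h
  have e1 : (m + 1 + t - 1).choose t = (t + m).choose m := by
    have e : m + 1 + t - 1 = t + m := by omega
    rw [e, Nat.choose_symm_add]
  -- lower bounds
  have l1 : (t + 1) ^ m ≤ m.factorial * (t + m).choose m := by
    have h1 := Nat.pow_succ_le_ascFactorial (t + 1) m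
    have h2 := Nat.ascFactorial_eq_factorial_mul_choose t m
    rwa [h2] at h1
  have l2 : ∀ j : Fin (c + 1), (t + 1) ^ m ≤
      m.factorial * (m + 1 + (t + 1 + j) - 1).choose (t + 1 + j) := by
    intro j
    have e : m + 1 + (t + 1 + (j : ℕ)) - 1 = (t + 1 + j) + m := by omega
    rw [e, Nat.choose_symm_add]
    have h1 := Nat.pow_succ_le_ascFactorial (t + 1 + j + 1) m
    have h2 := Nat.ascFactorial_eq_factorial_mul_choose (t + 1 + j) m
    rw [h2] at h1
    exact (Nat.pow_le_pow_left (by omega) m).trans h1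
  have l3 : (c + 1) * (t + 1) ^ m ≤
      m.factorial * ∑ j : Fin (c + 1), (m + 1 + (t + 1 + j) - 1).choose (t + 1 + j) := by
    rw [Finset.mul_sum]
    calc (c + 1) * (t + 1) ^ m = ∑ _j : Fin (c + 1), (t + 1) ^ m := by
          rw [Finset.sum_const, Finset.card_univ, Fintype.card_fin, smul_eq_mul]
      _ ≤ _ := Finset.sum_le_sum fun j _ => l2 j
  -- upper bounds
  have u1 : (m + 1).factorial * (m + 1 + c).choose c ≤ (c + (m + 1)) ^ (m + 1) := by
    have h1 := Nat.ascFactorial_le_pow_add c (m + 1)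
    have h2 := Nat.ascFactorial_eq_factorial_mul_choose c (m + 1)
    rw [h2] at h1
    have e : (m + 1 + c).choose c = (c + (m + 1)).choose (m + 1) := by
      rw [Nat.add_comm (m + 1) c, Nat.choose_symm_add]
    rwa [e]
  have u2 : (m + 1).factorial * (m + 1 + (c + c)).choose (m + 1) ≤
      (c + c + (m + 1)) ^ (m + 1) := by
    have h1 := Nat.ascFactorial_le_pow_add (c + c) (m + 1)
    have h2 := Nat.ascFactorial_eq_factorial_mul_choose (c + c) (m + 1)
    rw [h2] at h1
    rwa [Nat.add_comm (m + 1) (c + c)]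
  rw [e1] at h
  set S0 := ∑ j : Fin (c + 1), (m + 1 + (t + 1 + j) - 1).choose (t + 1 + j)
  set A0 := (t + m).choose m
  set B0 := (m + 1 + c).choose c
  set C0 := (m + 1 + (c + c)).choose (m + 1)
  have hf : (m + 1).factorial = (m + 1) * m.factorial := Nat.factorial_succ m
  -- the main comparison
  have k1 : (m + 1) ^ 2 * ((c + 1) * ((t + 1) ^ m * (t + 1) ^ m)) ≤
      (m + 1) * ((c + (m + 1)) ^ (m + 1) * (c + c + (m + 1)) ^ (m + 1)) := by
    calc (m + 1) ^ 2 * ((c + 1) * ((t + 1) ^ m * (t + 1) ^ m))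
        = (m + 1) ^ 2 * (((t + 1) ^ m) * ((c + 1) * (t + 1) ^ m)) := by ring
      _ ≤ (m + 1) ^ 2 * ((m.factorial * A0) * (m.factorial * S0)) :=
          Nat.mul_le_mul_left _ (Nat.mul_le_mul l1 l3)
      _ = ((m + 1).factorial) ^ 2 * (A0 * S0) := by rw [hf]; ring
      _ ≤ ((m + 1).factorial) ^ 2 * (((m + 1) * B0) * C0) := Nat.mul_le_mul_left _ h
      _ = (m + 1) * (((m + 1).factorial * B0) * ((m + 1).factorial * C0)) := by ring
      _ ≤ _ := Nat.mul_le_mul_left _ (Nat.mul_le_mul u1 u2)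
  rcases Nat.eq_zero_or_pos c with hc | hc
  · -- powers of the maximal ideal
    exfalso
    subst hc
    have hB : B0 = 1 := Nat.choose_zero_right _
    have hC : C0 = 1 := Nat.choose_self _
    rw [hB, hC, mul_one, mul_one] at h
    have hS : S0 = (m + 1 + (t + 1)  - 1).choose (t + 1) := by
      show ∑ j : Fin (0 + 1), (m + 1 + (t + 1 + (j : ℕ)) - 1).choose (t + 1 + j) = _
      simp
    have g1 : m + 1 ≤ A0 := by
      have h1 : (1 + m).choose m ≤ (t + m).choose m := Nat.choose_le_choose m (by omega)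
      have h2 : (1 + m).choose m = m + 1 := by
        rw [Nat.add_comm 1 m, Nat.choose_succ_self_right]
      omega
    have g2 : m + 2 ≤ S0 := by
      rw [hS]
      have e : m + 1 + (t + 1) - 1 = (t + 1) + m := by omega
      rw [e, Nat.choose_symm_add]
      have h1 : (2 + m).choose m ≤ (t + 1 + m).choose m := Nat.choose_le_choose m (by omega)
      have h2 : (2 + m).choose m = (m + 2).choose 2 := by
        rw [Nat.add_comm 2 m, Nat.choose_symm_add]
      have h3 : (m + 1 + 1).choose 2 = (m + 1).choose 1 + (m + 1).choose 2 :=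
        Nat.choose_succ_succ _ _
      have h4 : (m + 1).choose 1 = m + 1 := Nat.choose_one_right _
      have h5 : 0 < (m + 1).choose 2 := Nat.choose_pos (by omega)
      have h6 : (m + 2).choose 2 = (m + 1 + 1).choose 2 := rfl
      omega
    have g3 : (m + 1) * (m + 2) ≤ A0 * S0 := Nat.mul_le_mul g1 g2
    nlinarith
  · by_contra hcon
    push Not at hcon
    have e2 : 2 * (m + 1) - 2 = m + m := by omega
    have e3 : 2 * (m + 1) - 1 = m + (m + 1) := by omega
    rw [e2, e3] at hcon
    have v1 : c + (m + 1) ≤ (m + 2) * c := by nlinarith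
    have v2 : c + c + (m + 1) ≤ (m + 3) * c := by nlinarith
    have v3 : (c + (m + 1)) ^ (m + 1) * (c + c + (m + 1)) ^ (m + 1) ≤
        ((m + 2) * c) ^ (m + 1) * ((m + 3) * c) ^ (m + 1) :=
      Nat.mul_le_mul (Nat.pow_le_pow_left v1 _) (Nat.pow_le_pow_left v2 _)
    have v4 : ((m + 2) * c) ^ (m + 1) * ((m + 3) * c) ^ (m + 1) =
        c * (((m + 1 + 1) * (m + 1 + 2)) ^ (m + 1) * c ^ (m + (m + 1))) := by
      rw [mul_pow, mul_pow, mul_pow, pow_add c m (m + 1), pow_succ c m]
      ring
    have k2 : (m + 1) ^ 2 * ((c + 1) * ((t + 1) ^ m * (t + 1) ^ m)) ≤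
        (m + 1) * (c * ((m + 1) * (t + 1) ^ (m + m))) := by
      refine k1.trans (Nat.mul_le_mul_left _ ?_)
      refine v3.trans ?_
      rw [v4]
      exact Nat.mul_le_mul_left _ hcon
    have hpos : 0 < (t + 1) ^ m * (t + 1) ^ m := by positivity
    rw [pow_add] at k2
    nlinarith [Nat.mul_pos (Nat.mul_pos (Nat.succ_pos m) (Nat.succ_pos m)) hpos]

/-- the number of maps, for ideals between two powers -/
theorem hom_le_T1 (I : Ideal (MvPolynomial (Fin n) K)) (s c : ℕ)
    (h1 : mm K n ^ (s + 1 + c) ≤ I) (h2 : I ≤ mm K n ^ (s + 1)) :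
    finrank K (I →ₗ[MvPolynomial (Fin n) K] (MvPolynomial (Fin n) K ⧸ I)) ≤
      finrank K (T1 I) + n * (n + c).choose n := by
  have := quot_finite I h1
  have a2 := range_le I s c h1 h2
  have a10 := finrank_T1 I
  have e3 : (n + c).choose c = (n + c).choose n := by
    rw [Nat.add_comm n c, Nat.choose_symm_add]
  rw [e3] at a2
  omega

/-- the lower bound for the number of maps, for ideals between two powers -/
theorem hom_ge_powers (hn : 1 ≤ n) (I : Ideal (MvPolynomial (Fin n) K)) (s c : ℕ)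
    (h1 : mm K n ^ (s + 1 + c) ≤ I) (h2 : I ≤ mm K n ^ (s + 1)) :
    (n + s - 1).choose s *
        ∑ j : Fin (c + 1), (n + (s + 1 + j) - 1).choose (s + 1 + j) ≤
      finrank K (I →ₗ[MvPolynomial (Fin n) K] (MvPolynomial (Fin n) K ⧸ I)) *
        (n + (c + c)).choose n := by
  have := quot_finite I h1
  have a1 := hom_ge I c c
  have a3 := ker_W_le_Qk I s c h2
  have a4 := range_W_le_killed I s c (c + 2) h1
  have a5 := le_range_W I s (c + 1) h2
  have a6 := le_ker_W I s (c + 1) (by
    have e : s + (c + 1) = s + 1 + c := by omega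
    rwa [e])
  have a7 := LinearMap.finrank_range_add_finrank_ker (W I s (c + 2))
  rw [finrank_U] at a7
  have a8 : (n + s - 1).choose s ≤ (n + (s + (c + 1)) - 1).choose (s + (c + 1)) :=
    nm_mono hn (by omega)
  rw [Fin.sum_univ_succ] at a7
  have a9 : ∑ i : Fin (c + 1), (n + (s + ((Fin.succ i : Fin (c + 2)) : ℕ)) - 1).choose
      (s + ((Fin.succ i : Fin (c + 2)) : ℕ)) =
      ∑ j : Fin (c + 1), (n + (s + 1 + j) - 1).choose (s + 1 + j) := by
    refine Finset.sum_congr rfl fun j _ => ?_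
    have e : s + ((Fin.succ j : Fin (c + 2)) : ℕ) = s + 1 + j := by
      rw [Fin.val_succ]; omega
    rw [e]
  rw [a9] at a7
  simp only [Fin.val_zero, add_zero] at a7
  set A0 := (n + s - 1).choose s
  set B0 := ∑ j : Fin (c + 1), (n + (s + 1 + j) - 1).choose (s + 1 + j)
  set D1 := finrank K (LinearMap.range (W I s (c + 2)))
  set D2 := finrank K (LinearMap.ker (W I s (c + 2)))
  have b1 : A0 * B0 ≤ D1 * D2 := by
    have a5' : A0 ≤ D1 := a5
    have a6' : A0 ≤ D2 := a8.trans a6
    obtain ⟨x, hx⟩ := Nat.exists_eq_add_of_le a5'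
    obtain ⟨y, hy⟩ := Nat.exists_eq_add_of_le a6'
    have hB : B0 = x + (A0 + y) := by omega
    rw [hB, hx, hy]
    nlinarith [Nat.zero_le (x * y)]
  calc A0 * B0 ≤ D1 * D2 := b1
    _ ≤ finrank K (killed I (c + 1)) * finrank K (Qk I (c + 1)) := Nat.mul_le_mul a4 a3
    _ = finrank K (Qk I (c + 1)) * finrank K (killed I (c + 1)) := mul_comm _ _
    _ ≤ _ := a1

/-- numerical consequence for many variables -/
theorem num_large (n s : ℕ) (hs : 2 ≤ s)
    (hn : 8 ^ (s - 2) * (s - 1).factorial * (2 * s - 2).factorial < n)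
    (h : (n + (s - 1) - 1).choose (s - 1) *
        ∑ j : Fin (s - 2 + 1), (n + (s - 1 + 1 + j) - 1).choose (s - 1 + 1 + j) ≤
      (n * (n + (s - 2)).choose (s - 2)) * (n + (s - 2 + (s - 2))).choose n) : False := by
  obtain ⟨c, rfl⟩ : ∃ c, s = c + 2 := ⟨s - 2, by omega⟩
  have e0 : c + 2 - 2 = c := by omega
  have e1 : c + 2 - 1 = c + 1 := by omega
  have e2 : 2 * (c + 2) - 2 = 2 * c + 2 := by omega
  rw [e0, e1] at h
  rw [e0, e1, e2] at hn
  have hc : 2 * c ≤ n := by
    have h1 : 2 * c + 2 ≤ (2 * c + 2).factorial := Nat.self_le_factorial _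
    have h2 : 1 ≤ 8 ^ c * (c + 1).factorial := Nat.succ_le_of_lt (by positivity)
    have h3 : 1 * (2 * c + 2).factorial ≤ 8 ^ c * (c + 1).factorial * (2 * c + 2).factorial :=
      Nat.mul_le_mul_right _ h2
    omega
  have hn0 : 0 < n := by omega
  -- lower bounds
  have l1 : n ^ (c + 1) ≤ (c + 1).factorial * (n + (c + 1) - 1).choose (c + 1) := by
    have h1 := Nat.pow_succ_le_ascFactorial n (c + 1)
    rwa [Nat.ascFactorial_eq_factorial_mul_choose'] at h1
  have l2 : n ^ (2 * c + 2) ≤ (2 * c + 2).factorial *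
      (n + (2 * c + 2) - 1).choose (2 * c + 2) := by
    have h1 := Nat.pow_succ_le_ascFactorial n (2 * c + 2)
    rwa [Nat.ascFactorial_eq_factorial_mul_choose'] at h1
  have l3 : (n + (2 * c + 2) - 1).choose (2 * c + 2) ≤
      ∑ j : Fin (c + 1), (n + (c + 1 + 1 + j) - 1).choose (c + 1 + 1 + j) := by
    have h1 := Finset.single_le_sum (f := fun j : Fin (c + 1) =>
      (n + (c + 1 + 1 + j) - 1).choose (c + 1 + 1 + j)) (fun i _ => Nat.zero_le _)
      (Finset.mem_univ (Fin.last c))
    have h2 : c + 1 + 1 + ((Fin.last c : Fin (c + 1)) : ℕ) = 2 * c + 2 := by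
      rw [Fin.val_last]; omega
    simp only [h2] at h1
    exact h1
  -- upper bounds
  have u1 : (n + c).choose c ≤ (2 * n) ^ c := by
    refine (Nat.choose_le_pow (n + c) c).trans (Nat.pow_le_pow_left (by omega) c)
  have u2 : (n + (c + c)).choose n ≤ (2 * n) ^ (c + c) := by
    have e : (n + (c + c)).choose n = (n + (c + c)).choose (c + c) := by
      rw [Nat.add_comm n (c + c), Nat.choose_symm_add]
    rw [e]
    exact (Nat.choose_le_pow (n + (c + c)) (c + c)).trans (Nat.pow_le_pow_left (by omega) _)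
  set A0 := (n + (c + 1) - 1).choose (c + 1)
  set B1 := (n + (2 * c + 2) - 1).choose (2 * c + 2)
  set S0 := ∑ j : Fin (c + 1), (n + (c + 1 + 1 + j) - 1).choose (c + 1 + 1 + j)
  have k1 : n ^ (3 * c + 3) ≤ ((c + 1).factorial * (2 * c + 2).factorial) *
      (n * (2 * n) ^ c * (2 * n) ^ (c + c)) := by
    calc n ^ (3 * c + 3) = n ^ (c + 1) * n ^ (2 * c + 2) := by rw [← pow_add]; congr 1; omega
      _ ≤ ((c + 1).factorial * A0) * ((2 * c + 2).factorial * B1) := Nat.mul_le_mul l1 l2
      _ ≤ ((c + 1).factorial * A0) * ((2 * c + 2).factorial * S0) :=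
          Nat.mul_le_mul_left _ (Nat.mul_le_mul_left _ l3)
      _ = ((c + 1).factorial * (2 * c + 2).factorial) * (A0 * S0) := by ring
      _ ≤ ((c + 1).factorial * (2 * c + 2).factorial) *
          ((n * (n + c).choose c) * (n + (c + c)).choose n) := Nat.mul_le_mul_left _ h
      _ ≤ _ := Nat.mul_le_mul_left _ (Nat.mul_le_mul (Nat.mul_le_mul_left _ u1) u2)
  have e5 : ((c + 1).factorial * (2 * c + 2).factorial) *
      (n * (2 * n) ^ c * (2 * n) ^ (c + c)) =
      (8 ^ c * (c + 1).factorial * (2 * c + 2).factorial) * n ^ (3 * c + 1) := by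
    have e6 : (8 : ℕ) ^ c = 2 ^ c * 2 ^ (c + c) := by
      rw [← pow_add, show (8 : ℕ) = 2 ^ 3 by norm_num, ← pow_mul]
      congr 1
      omega
    have e7 : n ^ (3 * c + 1) = n * n ^ c * (n ^ c * n ^ c) := by
      rw [← pow_add, ← pow_succ', ← pow_add]
      congr 1
      omega
    rw [e6, e7, mul_pow, mul_pow, pow_add n c c]
    ring
  rw [e5] at k1
  have k2 : (8 ^ c * (c + 1).factorial * (2 * c + 2).factorial) * n ^ (3 * c + 1) <
      n * n ^ (3 * c + 1) := Nat.mul_lt_mul_of_pos_right hn (by positivity)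
  have k3 : n * n ^ (3 * c + 1) ≤ n ^ (3 * c + 3) := by
    rw [← pow_succ']
    exact Nat.pow_le_pow_right hn0 (by omega)
  omega

end Pool.Agent.H72.Rigid
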