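import Mathlib

/-!
# Rigid local algebras: the definitions (helper72)

`S = K[x_1, ..., x_n]`, `m` the ideal of the variables, `I` an ideal, `A = S / I`.
-/

set_option autoImplicit false

namespace Pool.Agent.H72.Rigid

open Module MvPolynomial

variable {K : Type*} [Field K] {n : ℕ}

/-- the ideal `m` of the variables -/
noncomputable abbrev mm (K : Type*) [Field K] (n : ℕ) : Ideal (MvPolynomial (Fin n) K) :=
  Ideal.span (Set.range (X : Fin n → MvPolynomial (Fin n) K))

/-- the elements of `A = S / I` killed by `m ^ k`; for `k = 1` this is the socle of `A` -/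
noncomputable abbrev killed (I : Ideal (MvPolynomial (Fin n) K)) (k : ℕ) :
    Submodule (MvPolynomial (Fin n) K) (MvPolynomial (Fin n) K ⧸ I) :=
  Submodule.torsionBySet (MvPolynomial (Fin n) K) (MvPolynomial (Fin n) K ⧸ I)
    ((mm K n ^ k : Ideal (MvPolynomial (Fin n) K)) : Set (MvPolynomial (Fin n) K))

theorem mk_mul_eq_smul {I : Ideal (MvPolynomial (Fin n) K)} (g : MvPolynomial (Fin n) K)
    (u : MvPolynomial (Fin n) K ⧸ I) : Ideal.Quotient.mk I g * u = g • u := by
  obtain ⟨v, rfl⟩ := Ideal.Quotient.mk_surjective u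
  rfl

/-- the maps `f ↦ ∑ (∂f/∂x_i) a_i` from the ideal to the quotient -/
noncomputable def derHom (I : Ideal (MvPolynomial (Fin n) K)) :
    (Fin n → MvPolynomial (Fin n) K ⧸ I) →ₗ[K]
      (I →ₗ[MvPolynomial (Fin n) K] (MvPolynomial (Fin n) K ⧸ I)) where
  toFun a :=
    { toFun := fun f => ∑ i : Fin n,
        Ideal.Quotient.mk I (pderiv i (f : MvPolynomial (Fin n) K)) * a i
      map_add' := fun f g => by
        rw [← Finset.sum_add_distrib]
        refine Finset.sum_congr rfl fun i _ => ?_
        rw [Submodule.coe_add, map_add, map_add, add_mul]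
      map_smul' := fun g f => by
        rw [RingHom.id_apply, Finset.smul_sum]
        refine Finset.sum_congr rfl fun i _ => ?_
        have h1 : ((g • f : I) : MvPolynomial (Fin n) K) = g * (f : MvPolynomial (Fin n) K) := rfl
        have h2 : Ideal.Quotient.mk I (f : MvPolynomial (Fin n) K) = 0 :=
          Ideal.Quotient.eq_zero_iff_mem.2 f.2
        rw [h1, Derivation.leibniz, smul_eq_mul, smul_eq_mul, map_add, map_mul, map_mul, h2,
          zero_mul, add_zero, mul_assoc, mk_mul_eq_smul] }
  map_add' a b := by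
    refine LinearMap.ext fun f => ?_
    show ∑ i : Fin n, Ideal.Quotient.mk I (pderiv i (f : MvPolynomial (Fin n) K)) * (a + b) i =
      ∑ i : Fin n, Ideal.Quotient.mk I (pderiv i (f : MvPolynomial (Fin n) K)) * a i +
      ∑ i : Fin n, Ideal.Quotient.mk I (pderiv i (f : MvPolynomial (Fin n) K)) * b i
    rw [← Finset.sum_add_distrib]
    refine Finset.sum_congr rfl fun i _ => ?_
    rw [Pi.add_apply, mul_add]
  map_smul' c a := by
    refine LinearMap.ext fun f => ?_
    show ∑ i : Fin n, Ideal.Quotient.mk I (pderiv i (f : MvPolynomial (Fin n) K)) * (c • a) i =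
      c • ∑ i : Fin n, Ideal.Quotient.mk I (pderiv i (f : MvPolynomial (Fin n) K)) * a i
    rw [Finset.smul_sum]
    refine Finset.sum_congr rfl fun i _ => ?_
    rw [Pi.smul_apply, mul_smul_comm]

theorem derHom_apply (I : Ideal (MvPolynomial (Fin n) K))
    (a : Fin n → MvPolynomial (Fin n) K ⧸ I) (f : I) :
    derHom I a f = ∑ i : Fin n, Ideal.Quotient.mk I (pderiv i (f : MvPolynomial (Fin n) K)) * a i :=
  rfl

/-- `T¹` of `K[x] / I`: the maps from the ideal to the quotient modulo those given by derivations -/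
abbrev T1 (I : Ideal (MvPolynomial (Fin n) K)) : Type _ :=
  (I →ₗ[MvPolynomial (Fin n) K] (MvPolynomial (Fin n) K ⧸ I)) ⧸ LinearMap.range (derHom I)

end Pool.Agent.H72.Rigid
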