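import Mathlib
import Pool.Agent.H12.Rig.Short3
import Pool.Agent.H72.Rigid.Defs

/-!
# Rigid local algebras: truncation, socle, maps into the socle (helper72)
-/

set_option autoImplicit false

namespace Pool.Agent.H72.Rigid

open Module MvPolynomial Pool.Agent.H12.Rig

variable {K : Type*} [Field K] {n : ℕ}

theorem mem_mm_pow {N : ℕ} {f : MvPolynomial (Fin n) K} :
    f ∈ mm K n ^ N ↔ ∀ x : Fin n →₀ ℕ, x.degree < N → coeff x f = 0 :=
  mem_pow_idealOfVars_iff' (σ := Fin n) (R := K) N f

theorem comp_eq_zero_of_mem {N k : ℕ} (hk : k < N) {f : MvPolynomial (Fin n) K}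
    (hf : f ∈ mm K n ^ N) : homogeneousComponent k f = 0 := by
  ext x
  rw [coeff_homogeneousComponent, coeff_zero]
  split_ifs with hx
  · exact mem_mm_pow.1 hf x (by omega)
  · rfl

theorem pderiv_mem {s : ℕ} {f : MvPolynomial (Fin n) K} (hf : f ∈ mm K n ^ (s + 1)) (i : Fin n) :
    pderiv i f ∈ mm K n ^ s := by
  rw [eq_sum_comp f, map_sum]
  refine Ideal.sum_mem _ fun k _ => ?_
  rcases Nat.lt_or_ge k (s + 1) with hk | hk
  · rw [comp_eq_zero_of_mem hk hf, map_zero]
    exact Ideal.zero_mem _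
  · obtain ⟨k', rfl⟩ : ∃ k', k = k' + 1 := ⟨k - 1, by omega⟩
    exact form_mem_pow (by omega) (pderiv_mem_S i k' (homogeneousComponent_mem (k' + 1) f))

/-- polynomials of degree at most `c`, as families of forms -/
abbrev T (K : Type*) [Field K] (n c : ℕ) : Type _ := (j : Fin (c + 1)) → S K n j

/-- the value of a truncated polynomial -/
noncomputable def val (K : Type*) [Field K] (n c : ℕ) : T K n c →ₗ[K] MvPolynomial (Fin n) K :=
  ∑ j : Fin (c + 1), (S K n j).subtype ∘ₗ LinearMap.proj j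

theorem val_apply (c : ℕ) (g : T K n c) :
    val K n c g = ∑ j : Fin (c + 1), (g j : MvPolynomial (Fin n) K) := by
  unfold val
  rw [LinearMap.sum_apply]
  rfl

theorem trunc_exists (c : ℕ) (f : MvPolynomial (Fin n) K) :
    ∃ g : T K n c, f - val K n c g ∈ mm K n ^ (c + 1) := by
  refine ⟨fun j => ⟨homogeneousComponent j f, homogeneousComponent_mem j f⟩, ?_⟩
  rw [mem_mm_pow]
  intro x hx
  rw [val_apply, coeff_sub, coeff_sum]
  have h : ∀ j : Fin (c + 1), coeff x (homogeneousComponent (j : ℕ) f) =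
      if j = (⟨x.degree, hx⟩ : Fin (c + 1)) then coeff x f else 0 := by
    intro j
    rw [coeff_homogeneousComponent]
    by_cases hj : x.degree = j
    · rw [if_pos hj, if_pos (Fin.ext hj.symm)]
    · rw [if_neg hj, if_neg (fun h => hj (by rw [h]))]
  have h2 : ∑ j : Fin (c + 1), coeff x (homogeneousComponent (j : ℕ) f) = coeff x f := by
    rw [Finset.sum_congr rfl fun j _ => h j, Finset.sum_ite_eq' Finset.univ
      (⟨x.degree, hx⟩ : Fin (c + 1)) (fun _ => coeff x f), if_pos (Finset.mem_univ _)]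
  rw [sub_eq_zero]
  exact h2.symm

theorem hockey (n c : ℕ) : ∑ j : Fin (c + 1), (n + (j : ℕ) - 1).choose j = (n + c).choose c := by
  induction c with
  | zero => simp
  | succ c ih =>
    rw [Fin.sum_univ_castSucc]
    have h1 : ∑ j : Fin (c + 1), (n + ((Fin.castSucc j : Fin (c + 1 + 1)) : ℕ) - 1).choose
        ((Fin.castSucc j : Fin (c + 1 + 1)) : ℕ) = (n + c).choose c := ih
    rw [h1, Fin.val_last]
    have h2 : n + (c + 1) - 1 = n + c := by omega
    rw [h2, ← add_assoc, Nat.choose_succ_succ]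

theorem finrank_T (c : ℕ) : finrank K (T K n c) = (n + c).choose c := by
  rw [Module.finrank_pi_fintype, ← hockey]
  refine Finset.sum_congr rfl fun j _ => ?_
  exact finrank_S j

/-- an element killed by the variables -/
theorem smul_eq_const {M : Type*} [AddCommGroup M] [Module (MvPolynomial (Fin n) K) M] [Module K M]
    [IsScalarTower K (MvPolynomial (Fin n) K) M] (x : M)
    (hx : ∀ i, (X i : MvPolynomial (Fin n) K) • x = 0) (g : MvPolynomial (Fin n) K) :
    g • x = constantCoeff g • x := by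
  induction g using MvPolynomial.induction_on with
  | C a =>
    rw [constantCoeff_C]
    exact algebraMap_smul (MvPolynomial (Fin n) K) a x
  | add p q hp hq => rw [add_smul, hp, hq, map_add, add_smul]
  | mul_X p i _ =>
    rw [mul_smul, hx, smul_zero, map_mul, constantCoeff_X, mul_zero, zero_smul]

/-- the socle of `K[x] / I`: the elements killed by all variables -/
def socle (I : Ideal (MvPolynomial (Fin n) K)) : Submodule K (MvPolynomial (Fin n) K ⧸ I) where
  carrier := {u | ∀ i, Ideal.Quotient.mk I (X i) * u = 0}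
  zero_mem' := fun i => mul_zero _
  add_mem' := fun {u v} hu hv i => by
    rw [mul_add, hu i, hv i, add_zero]
  smul_mem' := fun c u hu i => by
    rw [mul_smul_comm, hu i, smul_zero]

theorem mem_socle {I : Ideal (MvPolynomial (Fin n) K)} {u : MvPolynomial (Fin n) K ⧸ I} :
    u ∈ socle I ↔ ∀ i, Ideal.Quotient.mk I (X i) * u = 0 := Iff.rfl

/-- the space `I / m I` -/
abbrev Q (I : Ideal (MvPolynomial (Fin n) K)) : Type _ :=
  I ⧸ (mm K n • (⊤ : Submodule (MvPolynomial (Fin n) K) I))

theorem Q_kill (I : Ideal (MvPolynomial (Fin n) K)) (i : Fin n) (x : Q I) :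
    (X i : MvPolynomial (Fin n) K) • x = 0 := by
  obtain ⟨f, rfl⟩ := Submodule.mkQ_surjective _ x
  rw [← map_smul, Submodule.mkQ_apply, Submodule.Quotient.mk_eq_zero]
  exact Submodule.smul_mem_smul (Ideal.subset_span ⟨i, rfl⟩) Submodule.mem_top

instance Q_finite (I : Ideal (MvPolynomial (Fin n) K)) : Module.Finite K (Q I) := by
  have h1 : Module.Finite (MvPolynomial (Fin n) K) (Q I) := inferInstance
  obtain ⟨s, hs⟩ := h1.fg_top
  refine ⟨⟨s, ?_⟩⟩
  rw [eq_top_iff]
  intro x _
  have hx : x ∈ Submodule.span (MvPolynomial (Fin n) K) (s : Set (Q I)) := by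
    rw [hs]; exact Submodule.mem_top
  induction hx using Submodule.span_induction with
  | mem x h => exact Submodule.subset_span h
  | zero => exact Submodule.zero_mem _
  | add x y _ _ hx hy => exact Submodule.add_mem _ (hx trivial) (hy trivial)
  | smul g x _ hx =>
    rw [smul_eq_const x (fun i => Q_kill I i x) g]
    exact Submodule.smul_mem _ _ (hx trivial)

/-- the map from the ideal into the socle given by a linear map on `I / m I` -/
noncomputable def socMap (I : Ideal (MvPolynomial (Fin n) K)) (γ : Q I →ₗ[K] socle I) :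
    I →ₗ[MvPolynomial (Fin n) K] (MvPolynomial (Fin n) K ⧸ I) where
  toFun f := (γ (Submodule.mkQ _ f) : MvPolynomial (Fin n) K ⧸ I)
  map_add' f g := by rw [map_add, map_add]; rfl
  map_smul' g f := by
    rw [map_smul, smul_eq_const (Submodule.mkQ _ f) (fun i => Q_kill I i _) g, map_smul,
      RingHom.id_apply]
    show constantCoeff g • (γ (Submodule.mkQ _ f) : MvPolynomial (Fin n) K ⧸ I) = _
    rw [smul_eq_const (γ (Submodule.mkQ _ f) : MvPolynomial (Fin n) K ⧸ I) (fun i => ?_) g]
    rw [← mk_mul_eq_smul]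
    exact (γ (Submodule.mkQ _ f)).2 i

theorem socMap_apply (I : Ideal (MvPolynomial (Fin n) K)) (γ : Q I →ₗ[K] socle I) (f : I) :
    socMap I γ f = (γ (Submodule.mkQ _ f) : MvPolynomial (Fin n) K ⧸ I) := rfl

instance hom_finite (I : Ideal (MvPolynomial (Fin n) K))
    [Module.Finite K (MvPolynomial (Fin n) K ⧸ I)] :
    Module.Finite K (I →ₗ[MvPolynomial (Fin n) K] (MvPolynomial (Fin n) K ⧸ I)) := by
  have h1 : Module.Finite (MvPolynomial (Fin n) K) I := inferInstance
  obtain ⟨s, hs⟩ := h1.fg_top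
  let E : (I →ₗ[MvPolynomial (Fin n) K] (MvPolynomial (Fin n) K ⧸ I)) →ₗ[K]
      (s → MvPolynomial (Fin n) K ⧸ I) :=
    { toFun := fun φ x => φ x
      map_add' := fun φ ψ => rfl
      map_smul' := fun c φ => rfl }
  refine Module.Finite.of_injective E ?_
  intro φ ψ h
  refine LinearMap.ext_on hs ?_
  intro x hx
  exact congrFun h ⟨x, hx⟩

/-- generators of the ideal up to `m I` -/
theorem exists_gens (I : Ideal (MvPolynomial (Fin n) K)) :
    ∃ f : Fin (finrank K (Q I)) → I,
      I ≤ Ideal.span (Set.range fun j => (f j : MvPolynomial (Fin n) K)) ⊔ mm K n * I := by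
  let b := Module.finBasis K (Q I)
  choose f hf using fun j => Submodule.mkQ_surjective
    (mm K n • (⊤ : Submodule (MvPolynomial (Fin n) K) I)) (b j)
  refine ⟨f, ?_⟩
  intro h hh
  have h3 := b.sum_repr (Submodule.mkQ _ (⟨h, hh⟩ : I))
  have h4 : (⟨h, hh⟩ : I) - ∑ j, (b.repr (Submodule.mkQ _ (⟨h, hh⟩ : I)) j) • f j ∈
      (mm K n • (⊤ : Submodule (MvPolynomial (Fin n) K) I)) := by
    rw [← Submodule.Quotient.mk_eq_zero, ← Submodule.mkQ_apply, map_sub, map_sum, sub_eq_zero]
    rw [← h3]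
    refine Finset.sum_congr rfl fun j _ => ?_
    rw [h3, ← hf j]
    rfl
  have h5 : ((⟨h, hh⟩ : I) - ∑ j, (b.repr (Submodule.mkQ _ (⟨h, hh⟩ : I)) j) • f j : I).1 ∈
      mm K n * I := by
    refine Submodule.smul_induction_on h4 ?_ ?_
    · intro r hr m _
      exact Ideal.mul_mem_mul hr m.2
    · intro x y hx hy
      exact Ideal.add_mem _ hx hy
  have h6 : (∑ j, (b.repr (Submodule.mkQ _ (⟨h, hh⟩ : I)) j) • f j : I).1 ∈
      Ideal.span (Set.range fun j => (f j : MvPolynomial (Fin n) K)) := by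
    rw [AddSubmonoidClass.coe_finsetSum]
    refine Ideal.sum_mem _ fun j _ => ?_
    have h7 : ((b.repr (Submodule.mkQ _ (⟨h, hh⟩ : I)) j) • f j : I).1 =
        C (b.repr (Submodule.mkQ _ (⟨h, hh⟩ : I)) j) * (f j : MvPolynomial (Fin n) K) := by
      rw [← smul_eq_C_mul]
      rfl
    rw [h7]
    exact Ideal.mul_mem_left _ _ (Ideal.subset_span ⟨j, rfl⟩)
  have h8 : h = (∑ j, (b.repr (Submodule.mkQ _ (⟨h, hh⟩ : I)) j) • f j : I).1 +
      ((⟨h, hh⟩ : I) - ∑ j, (b.repr (Submodule.mkQ _ (⟨h, hh⟩ : I)) j) • f j : I).1 := by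
    rw [Submodule.coe_sub]
    ring
  rw [h8]
  exact Submodule.add_mem_sup h6 h5

theorem quot_finite {N : ℕ} (I : Ideal (MvPolynomial (Fin n) K)) (hN : mm K n ^ N ≤ I) :
    Module.Finite K (MvPolynomial (Fin n) K ⧸ I) := by
  refine Module.Finite.of_surjective
    ((Ideal.Quotient.mkₐ K I).toLinearMap ∘ₗ val K n N) ?_
  intro u
  obtain ⟨f, rfl⟩ := Ideal.Quotient.mk_surjective u
  obtain ⟨g, hg⟩ := trunc_exists N f
  refine ⟨g, ?_⟩
  show Ideal.Quotient.mk I (val K n N g) = Ideal.Quotient.mk I f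
  symm
  rw [Ideal.Quotient.eq]
  exact hN (Ideal.pow_le_pow_right (Nat.le_succ N) hg)

end Pool.Agent.H72.Rigid
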