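import Pool.Agent.H72.Rigid.Basic

/-!
# Rigid local algebras: counting maps into the socle (helper72)
-/

set_option autoImplicit false

namespace Pool.Agent.H72.Rigid

open Module MvPolynomial Pool.Agent.H12.Rig

variable {K : Type*} [Field K] {n : ℕ}

instance socle_finite (I : Ideal (MvPolynomial (Fin n) K))
    [Module.Finite K (MvPolynomial (Fin n) K ⧸ I)] : Module.Finite K (socle I) := inferInstance

theorem finrank_T1 (I : Ideal (MvPolynomial (Fin n) K))
    [Module.Finite K (MvPolynomial (Fin n) K ⧸ I)] :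
    finrank K (T1 I) + finrank K (LinearMap.range (derHom I)) =
      finrank K (I →ₗ[MvPolynomial (Fin n) K] (MvPolynomial (Fin n) K ⧸ I)) :=
  Submodule.finrank_quotient_add_finrank _

/-- the maps into the socle -/
theorem count_le (I : Ideal (MvPolynomial (Fin n) K))
    [Module.Finite K (MvPolynomial (Fin n) K ⧸ I)] :
    finrank K (Q I) * finrank K (socle I) ≤
      finrank K (T1 I) + finrank K (LinearMap.range (derHom I)) := by
  let Φ : (Q I →ₗ[K] socle I) →ₗ[K]
      (I →ₗ[MvPolynomial (Fin n) K] (MvPolynomial (Fin n) K ⧸ I)) :=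
    { toFun := socMap I
      map_add' := fun γ γ' => rfl
      map_smul' := fun c γ => rfl }
  have hinj : Function.Injective Φ := by
    intro γ γ' h
    refine LinearMap.ext fun x => ?_
    obtain ⟨f, rfl⟩ := Submodule.mkQ_surjective _ x
    have h1 := LinearMap.congr_fun h f
    exact Subtype.ext h1
  have h3 := LinearMap.finrank_le_finrank_of_injective hinj
  rw [finrank_T1]
  rwa [Module.finrank_linearMap] at h3

/-- a lower bound for the dimension of `T¹` -/
theorem mul_add_le (I : Ideal (MvPolynomial (Fin n) K))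
    [Module.Finite K (MvPolynomial (Fin n) K ⧸ I)] (h2 : I ≤ mm K n ^ 2) :
    finrank K (Q I) * finrank K (socle I) + n * finrank K (socle I) ≤
      finrank K (T1 I) + n * finrank K (MvPolynomial (Fin n) K ⧸ I) := by
  have h1 := count_le I
  have h3 := LinearMap.finrank_range_add_finrank_ker (derHom I)
  rw [Module.finrank_pi_fintype, Finset.sum_const, Finset.card_univ, Fintype.card_fin,
    smul_eq_mul] at h3
  let Ψ : (Fin n → socle I) →ₗ[K] (Fin n → MvPolynomial (Fin n) K ⧸ I) :=
    LinearMap.pi fun i => (socle I).subtype ∘ₗ LinearMap.proj i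
  have hΨ : ∀ a i, Ψ a i = (a i : MvPolynomial (Fin n) K ⧸ I) := fun a i => rfl
  have hker : ∀ a, Ψ a ∈ LinearMap.ker (derHom I) := by
    intro a
    rw [LinearMap.mem_ker]
    refine LinearMap.ext fun f => ?_
    rw [derHom_apply]
    refine Finset.sum_eq_zero fun i _ => ?_
    rw [hΨ, mk_mul_eq_smul, smul_eq_const (a i : MvPolynomial (Fin n) K ⧸ I) (fun j => ?_)]
    · have h4 : pderiv i (f : MvPolynomial (Fin n) K) ∈ mm K n ^ 1 := pderiv_mem (h2 f.2) i
      have h5 : constantCoeff (pderiv i (f : MvPolynomial (Fin n) K)) = 0 := by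
        rw [constantCoeff_eq]
        exact mem_mm_pow.1 h4 0 (by simp)
      rw [h5, zero_smul]
    · rw [← mk_mul_eq_smul]
      exact (a i).2 j
  have hinj : Function.Injective (Ψ.codRestrict _ hker) := by
    intro a b h
    funext i
    have h4 := congrFun (congrArg Subtype.val h) i
    exact Subtype.ext h4
  have h6 := LinearMap.finrank_le_finrank_of_injective hinj
  rw [Module.finrank_pi_fintype, Finset.sum_const, Finset.card_univ, Fintype.card_fin,
    smul_eq_mul] at h6
  omega

/-- derivations see only the part of low degree -/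
theorem range_le (I : Ideal (MvPolynomial (Fin n) K)) (s c : ℕ)
    (h1 : mm K n ^ (s + 1 + c) ≤ I) (h2 : I ≤ mm K n ^ (s + 1)) :
    finrank K (LinearMap.range (derHom I)) ≤ n * (n + c).choose c := by
  let R : (Fin n → T K n c) →ₗ[K] (Fin n → MvPolynomial (Fin n) K ⧸ I) :=
    LinearMap.pi fun i => (Ideal.Quotient.mkₐ K I).toLinearMap ∘ₗ val K n c ∘ₗ LinearMap.proj i
  have hR : ∀ g i, R g i = Ideal.Quotient.mk I (val K n c (g i)) := fun g i => rfl
  have h3 : LinearMap.range (derHom I) ≤ LinearMap.range (derHom I ∘ₗ R) := by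
    rintro _ ⟨a, rfl⟩
    choose b hb using fun i => Ideal.Quotient.mk_surjective (a i)
    choose g hg using fun i => trunc_exists c (b i)
    refine ⟨g, ?_⟩
    refine LinearMap.ext fun f => ?_
    rw [LinearMap.comp_apply, derHom_apply, derHom_apply]
    refine Finset.sum_congr rfl fun i _ => ?_
    rw [hR, ← hb i, ← map_mul, ← map_mul]
    symm
    rw [Ideal.Quotient.eq, ← mul_sub]
    refine h1 ?_
    have h4 := Ideal.mul_mem_mul (pderiv_mem (h2 f.2) i) (hg i)
    rw [← pow_add] at h4
    have h5 : s + (c + 1) = s + 1 + c := by omega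
    rwa [h5] at h4
  have h4 : finrank K (LinearMap.range (derHom I)) ≤
      finrank K (LinearMap.range (derHom I ∘ₗ R)) := Submodule.finrank_mono h3
  have h5 := LinearMap.finrank_range_le (derHom I ∘ₗ R)
  rw [Module.finrank_pi_fintype, Finset.sum_const, Finset.card_univ, Fintype.card_fin,
    smul_eq_mul, finrank_T] at h5
  exact h4.trans h5

/-- many generators -/
theorem gens_ge (I : Ideal (MvPolynomial (Fin n) K)) (s c : ℕ)
    (h1 : mm K n ^ (s + c) ≤ I) (h2 : I ≤ mm K n ^ s) :
    (n + (s + c) - 1).choose (s + c) ≤ finrank K (Q I) * (n + c).choose c := by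
  obtain ⟨f, hJ'⟩ := exists_gens I
  let J : Ideal (MvPolynomial (Fin n) K) :=
    Ideal.span (Set.range fun j => (f j : MvPolynomial (Fin n) K))
  have hJ : I ≤ J ⊔ mm K n * I := hJ'
  have hJk : ∀ k, I ≤ J ⊔ mm K n ^ k * I := by
    intro k
    induction k with
    | zero => rw [pow_zero, one_mul]; exact le_sup_right
    | succ k ih =>
      refine ih.trans (sup_le le_sup_left ?_)
      refine (Ideal.mul_mono_right hJ).trans ?_
      rw [Ideal.mul_sup]
      refine sup_le (le_trans Ideal.mul_le_right le_sup_left) ?_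
      rw [← mul_assoc, ← pow_succ]
      exact le_sup_right
  let Ψ : (Fin (finrank K (Q I)) → T K n c) →ₗ[K] S K n (s + c) :=
    LinearMap.codRestrict (S K n (s + c)) (homogeneousComponent (s + c) ∘ₗ
      (∑ j, LinearMap.mulRight K (f j : MvPolynomial (Fin n) K) ∘ₗ val K n c ∘ₗ
        LinearMap.proj j)) (fun g => homogeneousComponent_mem _ _)
  have hΨ : ∀ g, (Ψ g : MvPolynomial (Fin n) K) =
      homogeneousComponent (s + c) (∑ j, val K n c (g j) * (f j : MvPolynomial (Fin n) K)) := by
    intro g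
    show homogeneousComponent (s + c) ((∑ j, LinearMap.mulRight K
      (f j : MvPolynomial (Fin n) K) ∘ₗ val K n c ∘ₗ LinearMap.proj j :
        (Fin (finrank K (Q I)) → T K n c) →ₗ[K] MvPolynomial (Fin n) K) g) = _
    rw [LinearMap.sum_apply]
    rfl
  have hsurj : Function.Surjective Ψ := by
    intro h
    have h3 : (h : MvPolynomial (Fin n) K) ∈ J ⊔ mm K n ^ (c + 1) * I :=
      hJk (c + 1) (h1 (form_mem_pow le_rfl h.2))
    obtain ⟨u, hu, r, hr, hur⟩ := Submodule.mem_sup.1 h3
    obtain ⟨p, hp⟩ := (Ideal.mem_span_range_iff_exists_fun).1 hu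
    choose g hg using fun j => trunc_exists c (p j)
    refine ⟨g, ?_⟩
    ext1
    rw [hΨ]
    have h4 : (h : MvPolynomial (Fin n) K) -
        ∑ j, val K n c (g j) * (f j : MvPolynomial (Fin n) K) ∈ mm K n ^ (s + c + 1) := by
      have h5 : (h : MvPolynomial (Fin n) K) -
          ∑ j, val K n c (g j) * (f j : MvPolynomial (Fin n) K) =
          ∑ j, (p j - val K n c (g j)) * (f j : MvPolynomial (Fin n) K) + r := by
        rw [← hur, ← hp]
        simp only [sub_mul, Finset.sum_sub_distrib]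
        ring
      rw [h5]
      have e : s + c + 1 = c + 1 + s := by omega
      refine Ideal.add_mem _ (Ideal.sum_mem _ fun j _ => ?_) ?_
      · have h6 := Ideal.mul_mem_mul (hg j) (h2 (f j).2)
        rwa [← pow_add, ← e] at h6
      · have h6 : mm K n ^ (c + 1) * I ≤ mm K n ^ (s + c + 1) := by
          have h7 : mm K n ^ (c + 1) * I ≤ mm K n ^ (c + 1) * mm K n ^ s := Ideal.mul_mono_right h2
          rwa [← pow_add, ← e] at h7
        exact h6 hr
    have h5 := comp_eq_zero_of_mem (Nat.lt_succ_self (s + c)) h4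
    rw [map_sub, comp_self h.2, sub_eq_zero] at h5
    exact h5.symm
  have h3 := LinearMap.finrank_range_le Ψ
  rw [LinearMap.range_eq_top.2 hsurj, finrank_top, finrank_S, Module.finrank_pi_fintype,
    Finset.sum_const, Finset.card_univ, Fintype.card_fin, smul_eq_mul, finrank_T] at h3
  exact h3

/-- every nonzero element has a nonzero multiple in the socle -/
theorem exists_socle {N : ℕ} (I : Ideal (MvPolynomial (Fin n) K)) (hN : mm K n ^ N ≤ I)
    {h : MvPolynomial (Fin n) K} (hh : h ∉ I) :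
    ∃ g, g * h ∉ I ∧ Ideal.Quotient.mk I (g * h) ∈ socle I := by
  classical
  have hex : ∃ k, ∀ g ∈ mm K n ^ k, g * h ∈ I :=
    ⟨N, fun g hg => I.mul_mem_right _ (hN hg)⟩
  have h0 : Nat.find hex ≠ 0 := by
    intro h0
    have h1 := Nat.find_spec hex
    rw [h0] at h1
    have h2 := h1 1 (by rw [pow_zero, Ideal.one_eq_top]; exact Submodule.mem_top)
    rw [one_mul] at h2
    exact hh h2
  obtain ⟨k, hk⟩ : ∃ k, Nat.find hex = k + 1 := ⟨Nat.find hex - 1, by omega⟩
  have h1 := Nat.find_min hex (show k < Nat.find hex by omega)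
  push Not at h1
  obtain ⟨g, hg, hgh⟩ := h1
  refine ⟨g, hgh, fun i => ?_⟩
  rw [← map_mul, Ideal.Quotient.eq_zero_iff_mem, ← mul_assoc]
  refine Nat.find_spec hex _ ?_
  rw [hk, pow_succ']
  exact Ideal.mul_mem_mul (Ideal.subset_span ⟨i, rfl⟩) hg

/-- large socle -/
theorem socle_ge (I : Ideal (MvPolynomial (Fin n) K)) (s c : ℕ)
    (h1 : mm K n ^ (s + 1 + c) ≤ I) (h2 : I ≤ mm K n ^ (s + 1)) :
    (n + s - 1).choose s ≤ finrank K (socle I) * (n + c).choose c := by
  have := quot_finite I h1
  obtain ⟨π, hπ⟩ := LinearMap.exists_leftInverse_of_injective (socle I).subtype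
    (Submodule.ker_subtype _)
  have hπ2 : ∀ u : socle I, π (u : MvPolynomial (Fin n) K ⧸ I) = u := fun u =>
    LinearMap.congr_fun hπ u
  let Θ : S K n s →ₗ[K] (T K n c →ₗ[K] socle I) :=
    ((LinearMap.mul K (MvPolynomial (Fin n) K)).flip.compl₁₂ (S K n s).subtype
      (val K n c)).compr₂ (π ∘ₗ (Ideal.Quotient.mkₐ K I).toLinearMap)
  have hΘ : ∀ h g, Θ h g = π (Ideal.Quotient.mk I (val K n c g *
      (h : MvPolynomial (Fin n) K))) := fun h g => rfl
  have hinj : Function.Injective Θ := by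
    refine (injective_iff_map_eq_zero Θ).2 ?_
    intro h hh
    by_contra hne
    have h3 : (h : MvPolynomial (Fin n) K) ∉ I := by
      intro h4
      have h5 := form_pow_zero (Nat.lt_succ_self s) h.2 (h2 h4)
      exact hne (Subtype.ext h5)
    obtain ⟨g, hg, hgs⟩ := exists_socle I h1 h3
    obtain ⟨g', hg'⟩ := trunc_exists c g
    have h4 : Ideal.Quotient.mk I (g * (h : MvPolynomial (Fin n) K)) =
        Ideal.Quotient.mk I (val K n c g' * (h : MvPolynomial (Fin n) K)) := by
      rw [Ideal.Quotient.eq, ← sub_mul]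
      refine h1 ?_
      have h5 := Ideal.mul_mem_mul hg' (form_mem_pow (le_refl s) h.2)
      rw [← pow_add] at h5
      have e : c + 1 + s = s + 1 + c := by omega
      rwa [e] at h5
    have h5 : Θ h g' = 0 := by rw [hh]; rfl
    rw [hΘ, ← h4] at h5
    have h6 := hπ2 ⟨_, hgs⟩
    rw [h5] at h6
    have h7 := congrArg Subtype.val h6
    exact hg (Ideal.Quotient.eq_zero_iff_mem.1 h7.symm)
  have h3 := LinearMap.finrank_le_finrank_of_injective hinj
  rw [finrank_S, Module.finrank_linearMap, finrank_T, mul_comm] at h3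
  exact h3

/-- the numerical condition -/
theorem main_ineq (I : Ideal (MvPolynomial (Fin n) K)) (s c : ℕ)
    (h1 : mm K n ^ (s + 1 + c) ≤ I) (h2 : I ≤ mm K n ^ (s + 1)) :
    (n + s - 1).choose s * (n + (s + 1 + c) - 1).choose (s + 1 + c) ≤
      (n + c).choose c ^ 2 * (n * (n + c).choose c + finrank K (T1 I)) := by
  have := quot_finite I h1
  have a1 := count_le I
  have a2 := range_le I s c h1 h2
  have a3 := gens_ge I (s + 1) c h1 h2
  have a4 := socle_ge I s c h1 h2
  set P := (n + c).choose c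
  calc (n + s - 1).choose s * (n + (s + 1 + c) - 1).choose (s + 1 + c)
      ≤ (finrank K (socle I) * P) * (finrank K (Q I) * P) := Nat.mul_le_mul a4 a3
    _ = P ^ 2 * (finrank K (Q I) * finrank K (socle I)) := by ring
    _ ≤ P ^ 2 * (n * P + finrank K (T1 I)) := Nat.mul_le_mul_left _ (by omega)

/-- the socle lies in the ideal of the partial derivatives of every minimal generator -/
theorem socle_le (I : Ideal (MvPolynomial (Fin n) K))
    (hT : ∀ φ : I →ₗ[MvPolynomial (Fin n) K] (MvPolynomial (Fin n) K ⧸ I),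
      φ ∈ LinearMap.range (derHom I))
    (f : MvPolynomial (Fin n) K) (hf : f ∈ I) (hf2 : f ∉ mm K n * I)
    (u : MvPolynomial (Fin n) K ⧸ I) (hu : u ∈ socle I) :
    ∃ a : Fin n → MvPolynomial (Fin n) K ⧸ I,
      u = ∑ i, Ideal.Quotient.mk I (pderiv i f) * a i := by
  have h1 : (Submodule.mkQ _ (⟨f, hf⟩ : I) : Q I) ≠ 0 := by
    rw [Submodule.mkQ_apply, Ne, Submodule.Quotient.mk_eq_zero]
    intro h
    apply hf2
    refine Submodule.smul_induction_on (p := fun x : I => (x : MvPolynomial (Fin n) K) ∈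
      mm K n * I) h ?_ ?_
    · intro r hr m _
      exact Ideal.mul_mem_mul hr m.2
    · intro x y hx hy
      exact Ideal.add_mem _ hx hy
  obtain ⟨l, hl⟩ : ∃ l : Module.Dual K (Q I), l (Submodule.mkQ _ (⟨f, hf⟩ : I)) ≠ 0 := by
    by_contra hcon
    push Not at hcon
    exact h1 ((Module.forall_dual_apply_eq_zero_iff K _).1 hcon)
  let γ : Q I →ₗ[K] socle I :=
    LinearMap.toSpanSingleton K (socle I)
      ((l (Submodule.mkQ _ (⟨f, hf⟩ : I)))⁻¹ • (⟨u, hu⟩ : socle I)) ∘ₗ l
  obtain ⟨a, ha⟩ := hT (socMap I γ)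
  refine ⟨a, ?_⟩
  have h2 := (LinearMap.congr_fun ha ⟨f, hf⟩).symm
  rw [socMap_apply, derHom_apply] at h2
  have h3 : γ (Submodule.mkQ _ (⟨f, hf⟩ : I)) = ⟨u, hu⟩ := by
    show l (Submodule.mkQ _ (⟨f, hf⟩ : I)) •
      ((l (Submodule.mkQ _ (⟨f, hf⟩ : I)))⁻¹ • (⟨u, hu⟩ : socle I)) = _
    rw [smul_smul, mul_inv_cancel₀ hl, one_smul]
  rw [h3] at h2
  exact h2

end Pool.Agent.H72.Rigid
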