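import Pool.Agent.H72.Rigid.Sharp

/-!
# Rigid local algebras: a lower bound for the number of linear maps (helper72)
-/

set_option autoImplicit false

namespace Pool.Agent.H72.Rigid

open Module MvPolynomial Pool.Agent.H12.Rig TensorProduct

variable {K : Type*} [Field K] {n : ℕ}

theorem sup_pow_le {R : Type*} [CommSemiring R] (I J : Ideal R) (a b : ℕ) :
    (I ⊔ J) ^ (a + b + 1) ≤ I ^ (a + 1) ⊔ J ^ (b + 1) := by
  rw [← Ideal.add_eq_sup, ← Ideal.add_eq_sup, add_pow, Ideal.sum_eq_sup]
  apply Finset.sup_le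
  intro i hi
  by_cases hn : a + 1 ≤ i
  · exact (Ideal.mul_le_left.trans (Ideal.mul_le_left.trans
      ((Ideal.pow_le_pow_right hn).trans le_sup_left)))
  · refine (Ideal.mul_le_left.trans (Ideal.mul_le_right.trans
      ((Ideal.pow_le_pow_right ?_).trans le_sup_right)))
    omega

section Count

variable {Z : Type*} [AddCommGroup Z] [Module K Z]

/-- the elements killed by all the operators -/
def soc (ρ : MvPolynomial (Fin n) K →ₐ[K] Module.End K Z) : Submodule K Z where
  carrier := {z | ∀ i, ρ (X i) z = 0}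
  zero_mem' := fun i => map_zero _
  add_mem' := fun {u v} hu hv i => by
    rw [map_add, hu i, hv i, add_zero]
  smul_mem' := fun c u hu i => by
    rw [map_smul, hu i, smul_zero]

theorem exists_soc (ρ : MvPolynomial (Fin n) K →ₐ[K] Module.End K Z) (L : ℕ)
    (hL : ∀ g ∈ mm K n ^ L, ρ g = 0) {z : Z} (hz : z ≠ 0) :
    ∃ g, ρ g z ≠ 0 ∧ ρ g z ∈ soc ρ := by
  classical
  have hex : ∃ k, ∀ g ∈ mm K n ^ k, ρ g z = 0 :=
    ⟨L, fun g hg => by rw [hL g hg, LinearMap.zero_apply]⟩
  have h0 : Nat.find hex ≠ 0 := by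
    intro h0
    have h1 := Nat.find_spec hex
    rw [h0] at h1
    have h2 := h1 1 (by rw [pow_zero, Ideal.one_eq_top]; exact Submodule.mem_top)
    rw [map_one] at h2
    exact hz h2
  obtain ⟨k, hk⟩ : ∃ k, Nat.find hex = k + 1 := ⟨Nat.find hex - 1, by omega⟩
  have h1 := Nat.find_min hex (show k < Nat.find hex by omega)
  push Not at h1
  obtain ⟨g, hg, hgz⟩ := h1
  refine ⟨g, hgz, fun i => ?_⟩
  have h2 : ρ (X i) (ρ g z) = ρ (X i * g) z := by rw [map_mul]; rfl
  rw [h2]
  refine Nat.find_spec hex _ ?_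
  rw [hk, pow_succ']
  exact Ideal.mul_mem_mul (Ideal.subset_span ⟨i, rfl⟩) hg

theorem finrank_le_soc [Module.Finite K Z] (ρ : MvPolynomial (Fin n) K →ₐ[K] Module.End K Z)
    (c : ℕ) (hL : ∀ g ∈ mm K n ^ (c + 1), ρ g = 0) :
    finrank K Z ≤ finrank K (soc ρ) * (n + c).choose c := by
  obtain ⟨π, hπ⟩ := LinearMap.exists_leftInverse_of_injective (soc ρ).subtype
    (Submodule.ker_subtype _)
  have hπ2 : ∀ u : soc ρ, π (u : Z) = u := fun u => LinearMap.congr_fun hπ u
  let Θ : Z →ₗ[K] (T K n c →ₗ[K] soc ρ) :=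
    ((ρ.toLinearMap ∘ₗ val K n c).flip).compr₂ π
  have hΘ : ∀ z g, Θ z g = π (ρ (val K n c g) z) := fun z g => rfl
  have hinj : Function.Injective Θ := by
    refine (injective_iff_map_eq_zero Θ).2 ?_
    intro z hz
    by_contra hne
    obtain ⟨g, hg, hgs⟩ := exists_soc ρ (c + 1) hL hne
    obtain ⟨g', hg'⟩ := trunc_exists c g
    have h4 : ρ g z = ρ (val K n c g') z := by
      have h5 := hL _ hg'
      rw [map_sub, sub_eq_zero] at h5
      rw [h5]
    have h5 : Θ z g' = 0 := by rw [hz]; rfl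
    rw [hΘ, ← h4] at h5
    have h6 := hπ2 ⟨_, hgs⟩
    rw [h5] at h6
    exact hg (congrArg Subtype.val h6).symm
  have h3 := LinearMap.finrank_le_finrank_of_injective hinj
  rw [Module.finrank_linearMap, finrank_T, mul_comm] at h3
  exact h3

end Count

section Bimodule

variable {X' Y' : Type*} [AddCommGroup X'] [Module (MvPolynomial (Fin n) K) X'] [Module K X']
  [IsScalarTower K (MvPolynomial (Fin n) K) X']
  [AddCommGroup Y'] [Module (MvPolynomial (Fin n) K) Y'] [Module K Y']
  [IsScalarTower K (MvPolynomial (Fin n) K) Y']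

variable (K n X' Y') in
/-- the action on the target -/
noncomputable def actL : MvPolynomial (Fin n) K →ₐ[K] Module.End K (X' →ₗ[K] Y') where
  toFun g := (Algebra.lsmul K K Y' g).compRight K
  map_one' := by
    refine LinearMap.ext fun φ => LinearMap.ext fun x => ?_
    exact one_smul _ _
  map_mul' g h := by
    refine LinearMap.ext fun φ => LinearMap.ext fun x => ?_
    exact mul_smul g h (φ x)
  map_zero' := by
    refine LinearMap.ext fun φ => LinearMap.ext fun x => ?_
    exact zero_smul _ _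
  map_add' g h := by
    refine LinearMap.ext fun φ => LinearMap.ext fun x => ?_
    exact add_smul g h (φ x)
  commutes' c := by
    refine LinearMap.ext fun φ => LinearMap.ext fun x => ?_
    exact algebraMap_smul (MvPolynomial (Fin n) K) c (φ x)

variable (K n X' Y') in
/-- the action on the source -/
noncomputable def actR : MvPolynomial (Fin n) K →ₐ[K] Module.End K (X' →ₗ[K] Y') where
  toFun g := LinearMap.lcomp K Y' (Algebra.lsmul K K X' g)
  map_one' := by
    refine LinearMap.ext fun φ => LinearMap.ext fun x => ?_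
    exact congrArg φ (one_smul _ x)
  map_mul' g h := by
    refine LinearMap.ext fun φ => LinearMap.ext fun x => ?_
    show φ ((g * h) • x) = φ (h • g • x)
    rw [mul_comm, mul_smul]
  map_zero' := by
    refine LinearMap.ext fun φ => LinearMap.ext fun x => ?_
    show φ ((0 : MvPolynomial (Fin n) K) • x) = 0
    rw [zero_smul, map_zero]
  map_add' g h := by
    refine LinearMap.ext fun φ => LinearMap.ext fun x => ?_
    show φ ((g + h) • x) = φ (g • x) + φ (h • x)
    rw [add_smul, map_add]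
  commutes' c := by
    refine LinearMap.ext fun φ => LinearMap.ext fun x => ?_
    show φ (algebraMap K (MvPolynomial (Fin n) K) c • x) = c • φ x
    rw [algebraMap_smul, map_smul]

theorem actL_apply (g : MvPolynomial (Fin n) K) (φ : X' →ₗ[K] Y') (x : X') :
    actL K n X' Y' g φ x = g • φ x := rfl

theorem actR_apply (g : MvPolynomial (Fin n) K) (φ : X' →ₗ[K] Y') (x : X') :
    actR K n X' Y' g φ x = φ (g • x) := rfl

variable (K n X' Y') in
/-- both actions -/
noncomputable def actLR : MvPolynomial (Fin n) K ⊗[K] MvPolynomial (Fin n) K →ₐ[K]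
    Module.End K (X' →ₗ[K] Y') :=
  Algebra.TensorProduct.lift (actL K n X' Y') (actR K n X' Y') fun g h => by
    refine LinearMap.ext fun φ => LinearMap.ext fun x => rfl

variable (K n) in
/-- the differences of the variables -/
noncomputable def diag : MvPolynomial (Fin n) K →ₐ[K]
    MvPolynomial (Fin n) K ⊗[K] MvPolynomial (Fin n) K :=
  aeval fun i => (X i) ⊗ₜ[K] 1 - 1 ⊗ₜ[K] (X i)

theorem actLR_diag_X (i : Fin n) (φ : X' →ₗ[K] Y') (x : X') :
    (actLR K n X' Y' (diag K n (X i))) φ x =
      (X i : MvPolynomial (Fin n) K) • φ x - φ ((X i : MvPolynomial (Fin n) K) • x) := by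
  have h1 : diag K n (X i) = (X i) ⊗ₜ[K] 1 - 1 ⊗ₜ[K] (X i) := aeval_X _ _
  rw [h1, map_sub]
  unfold actLR
  rw [Algebra.TensorProduct.lift_tmul, Algebra.TensorProduct.lift_tmul, map_one, map_one,
    mul_one, one_mul]
  rfl

theorem diag_pow_mem (j : ℕ) {g : MvPolynomial (Fin n) K} (hg : g ∈ mm K n ^ j) :
    diag K n g ∈ (Ideal.map (Algebra.TensorProduct.includeLeft :
        MvPolynomial (Fin n) K →ₐ[K] MvPolynomial (Fin n) K ⊗[K] MvPolynomial (Fin n) K)
          (mm K n) ⊔
      Ideal.map (Algebra.TensorProduct.includeRight :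
        MvPolynomial (Fin n) K →ₐ[K] MvPolynomial (Fin n) K ⊗[K] MvPolynomial (Fin n) K)
          (mm K n)) ^ j := by
  have h1 := Ideal.mem_map_of_mem (diag K n) hg
  rw [Ideal.map_pow] at h1
  refine Ideal.pow_right_mono ?_ j h1
  rw [Ideal.map_le_iff_le_comap, Ideal.span_le]
  rintro _ ⟨i, rfl⟩
  rw [SetLike.mem_coe, Ideal.mem_comap]
  have h2 : diag K n (X i) = (X i) ⊗ₜ[K] 1 - 1 ⊗ₜ[K] (X i) := aeval_X _ _
  rw [h2]
  refine Ideal.sub_mem _ ?_ ?_
  · exact Submodule.mem_sup_left (Ideal.mem_map_of_mem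
      (Algebra.TensorProduct.includeLeft : MvPolynomial (Fin n) K →ₐ[K]
        MvPolynomial (Fin n) K ⊗[K] MvPolynomial (Fin n) K) (Ideal.subset_span ⟨i, rfl⟩))
  · exact Submodule.mem_sup_right (Ideal.mem_map_of_mem
      (Algebra.TensorProduct.includeRight : MvPolynomial (Fin n) K →ₐ[K]
        MvPolynomial (Fin n) K ⊗[K] MvPolynomial (Fin n) K) (Ideal.subset_span ⟨i, rfl⟩))

theorem act_nilp (a b : ℕ) (hX : ∀ g ∈ mm K n ^ (a + 1), ∀ x : X', g • x = 0)
    (hY : ∀ g ∈ mm K n ^ (b + 1), ∀ y : Y', g • y = 0)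
    (g : MvPolynomial (Fin n) K) (hg : g ∈ mm K n ^ (b + a + 1)) :
    actLR K n X' Y' (diag K n g) = 0 := by
  have h1 := sup_pow_le _ _ b a (diag_pow_mem _ hg)
  rw [← Ideal.map_pow, ← Ideal.map_pow] at h1
  have h2 : Ideal.map (Algebra.TensorProduct.includeLeft :
        MvPolynomial (Fin n) K →ₐ[K] MvPolynomial (Fin n) K ⊗[K] MvPolynomial (Fin n) K)
          (mm K n ^ (b + 1)) ⊔
      Ideal.map (Algebra.TensorProduct.includeRight :
        MvPolynomial (Fin n) K →ₐ[K] MvPolynomial (Fin n) K ⊗[K] MvPolynomial (Fin n) K)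
          (mm K n ^ (a + 1)) ≤ RingHom.ker (actLR K n X' Y') := by
    refine sup_le ?_ ?_
    · rw [Ideal.map_le_iff_le_comap]
      intro h hh
      show actLR K n X' Y' (h ⊗ₜ[K] 1) = 0
      unfold actLR
      rw [Algebra.TensorProduct.lift_tmul, map_one, mul_one]
      refine LinearMap.ext fun φ => LinearMap.ext fun x => ?_
      exact hY h hh (φ x)
    · rw [Ideal.map_le_iff_le_comap]
      intro h hh
      show actLR K n X' Y' (1 ⊗ₜ[K] h) = 0
      unfold actLR
      rw [Algebra.TensorProduct.lift_tmul, map_one, one_mul]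
      refine LinearMap.ext fun φ => LinearMap.ext fun x => ?_
      rw [actR_apply, hX h hh x, map_zero]
      rfl
  exact h2 h1

/-- **Counting linear maps between modules killed by powers of `m`.** -/
theorem finrank_hom_le [Module.Finite K X'] [Module.Finite K Y']
    [Module.Finite K (X' →ₗ[MvPolynomial (Fin n) K] Y')] (a b : ℕ)
    (hX : ∀ g ∈ mm K n ^ (a + 1), ∀ x : X', g • x = 0)
    (hY : ∀ g ∈ mm K n ^ (b + 1), ∀ y : Y', g • y = 0) :
    finrank K X' * finrank K Y' ≤
      finrank K (X' →ₗ[MvPolynomial (Fin n) K] Y') * (n + (b + a)).choose (b + a) := by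
  have h1 := finrank_le_soc ((actLR K n X' Y').comp (diag K n)) (b + a)
    (fun g hg => act_nilp a b hX hY g hg)
  rw [Module.finrank_linearMap] at h1
  refine h1.trans (Nat.mul_le_mul_right _ ?_)
  have hlin : ∀ φ : soc ((actLR K n X' Y').comp (diag K n)), ∀ (g : MvPolynomial (Fin n) K)
      (x : X'), (φ : X' →ₗ[K] Y') (g • x) = g • (φ : X' →ₗ[K] Y') x := by
    intro φ g
    induction g using MvPolynomial.induction_on with
    | C c =>
      intro x
      have e1 : (C c : MvPolynomial (Fin n) K) • x = c • x := algebraMap_smul _ c x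
      have e2 : (C c : MvPolynomial (Fin n) K) • (φ : X' →ₗ[K] Y') x =
        c • (φ : X' →ₗ[K] Y') x := algebraMap_smul _ c _
      rw [e1, e2, map_smul]
    | add p q hp hq =>
      intro x
      rw [add_smul, map_add, hp, hq, add_smul]
    | mul_X p i hp =>
      intro x
      have h2 := LinearMap.congr_fun (φ.2 i) x
      have h3 : (X i : MvPolynomial (Fin n) K) • (φ : X' →ₗ[K] Y') x -
          (φ : X' →ₗ[K] Y') ((X i : MvPolynomial (Fin n) K) • x) = 0 := by
        rw [← actLR_diag_X]
        exact h2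
      rw [mul_smul, hp, ← sub_eq_zero.1 h3, mul_smul]
  let E : soc ((actLR K n X' Y').comp (diag K n)) →ₗ[K] (X' →ₗ[MvPolynomial (Fin n) K] Y') :=
    { toFun := fun φ =>
        { toFun := fun x => (φ : X' →ₗ[K] Y') x
          map_add' := fun x y => map_add _ x y
          map_smul' := fun g x => hlin φ g x }
      map_add' := fun φ ψ => rfl
      map_smul' := fun c φ => rfl }
  have hinj : Function.Injective E := by
    intro φ ψ h
    refine Subtype.ext (LinearMap.ext fun x => ?_)
    exact LinearMap.congr_fun h x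
  exact LinearMap.finrank_le_finrank_of_injective hinj

end Bimodule

end Pool.Agent.H72.Rigid
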