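import Pool.Agent.H72.Rigid.Gen

/-!
# Rigid local algebras: names for the dimensions (helper72)

`S = K[x_1, ..., x_n]`, `m` the ideal of the variables, `I` an ideal, `A = S / I`.
-/

set_option autoImplicit false

namespace Pool.Agent.H72.Rigid

open Module MvPolynomial

variable {K : Type} [Field K] {n : ℕ}

/-- the dimension of `Hom_S(I, A)` -/
noncomputable def homDim (I : Ideal (MvPolynomial (Fin n) K)) : ℕ :=
  finrank K (I →ₗ[MvPolynomial (Fin n) K] (MvPolynomial (Fin n) K ⧸ I))

/-- the dimension of `I / m^k I` -/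
noncomputable def genDim (I : Ideal (MvPolynomial (Fin n) K)) (k : ℕ) : ℕ :=
  finrank K (I ⧸ (mm K n ^ k • (⊤ : Submodule (MvPolynomial (Fin n) K) I)))

/-- the dimension of `(0 :_A m^k)`; for `k = 1` this is the dimension of the socle of `A` -/
noncomputable def socDim (I : Ideal (MvPolynomial (Fin n) K)) (k : ℕ) : ℕ :=
  finrank K (killed I k)

/-- the dimension of `A / (x A + (0 :_A m^r))` -/
noncomputable def cutDim (I : Ideal (MvPolynomial (Fin n) K)) (r : ℕ)
    (x : MvPolynomial (Fin n) K) : ℕ :=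
  finrank K ((MvPolynomial (Fin n) K ⧸ I) ⧸ Ideal.span ({Ideal.Quotient.mk I x} ∪
    (killed I r : Set (MvPolynomial (Fin n) K ⧸ I))))

/-- the dimension of `T¹` -/
noncomputable def t1Dim (I : Ideal (MvPolynomial (Fin n) K)) : ℕ := finrank K (T1 I)

/-- the dimension of `A` -/
noncomputable def algDim (I : Ideal (MvPolynomial (Fin n) K)) : ℕ :=
  finrank K (MvPolynomial (Fin n) K ⧸ I)

/-- `m^(s+c) ≤ I ≤ m^s` -/
def Between (I : Ideal (MvPolynomial (Fin n) K)) (s c : ℕ) : Prop :=
  mm K n ^ (s + c) ≤ I ∧ I ≤ mm K n ^ s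

end Pool.Agent.H72.Rigid
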