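import Pool.Agent.H72.Rigid.Apply
import Pool.Agent.H38.Rig.Socle2

/-!
# Rigid local algebras: two further clauses (helper72, helper38, helper12)
-/

set_option autoImplicit false

namespace Pool.Agent.H72.Rigid

open Module MvPolynomial Pool.Agent.H12.Rig

variable {K : Type} [Field K] {n : ℕ}

theorem subsingleton_iff (I : Ideal (MvPolynomial (Fin n) K)) :
    Subsingleton (T1 I) ↔
      ∀ φ : I →ₗ[MvPolynomial (Fin n) K] (MvPolynomial (Fin n) K ⧸ I), DerOf I φ := by
  constructor
  · intro h φ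
    have h1 : Submodule.Quotient.mk (p := LinearMap.range (derHom I)) φ = 0 :=
      Subsingleton.elim _ _
    rw [Submodule.Quotient.mk_eq_zero] at h1
    obtain ⟨a, ha⟩ := h1
    exact ⟨a, fun f => by rw [← ha, derHom_apply]⟩
  · intro h
    refine ⟨fun u v => ?_⟩
    obtain ⟨φ, rfl⟩ := Submodule.Quotient.mk_surjective _ u
    obtain ⟨ψ, rfl⟩ := Submodule.Quotient.mk_surjective _ v
    rw [Submodule.Quotient.eq]
    obtain ⟨a, ha⟩ := h (φ - ψ)
    refine ⟨a, ?_⟩
    refine LinearMap.ext fun f => ?_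
    rw [derHom_apply, ha f]

/-- ideals between two consecutive powers (helper12) -/
theorem consecutive (hn : 1 ≤ n) (s : ℕ) (hs : 2 ≤ s) (I : Ideal (MvPolynomial (Fin n) K))
    (h1 : mm K n ^ (s + 1) ≤ I) (h2 : I ≤ mm K n ^ s) : Nontrivial (T1 I) := by
  by_contra hT
  rw [not_nontrivial_iff_subsingleton, subsingleton_iff] at hT
  obtain ⟨φ, hφ⟩ := short hn s hs I h1 h2
  exact hφ (hT φ)

theorem mem_soc_iff (I : Ideal (MvPolynomial (Fin n) K)) (u : MvPolynomial (Fin n) K ⧸ I) :
    u ∈ Pool.Agent.H38.Rig.soc I ↔ u ∈ killed I 1 := by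
  rw [Pool.Agent.H38.Rig.mem_soc, Submodule.mem_torsionBySet_iff]
  constructor
  · rintro h ⟨g, hg⟩
    show g • u = 0
    rw [← mk_mul_eq_smul]
    have hg2 : g ∈ mm K n ^ 1 := hg
    rw [pow_one] at hg2
    exact h g hg2
  · intro h y hy
    rw [mk_mul_eq_smul]
    exact h ⟨y, by
      show y ∈ mm K n ^ 1
      rw [pow_one]
      exact hy⟩

theorem finrank_soc (I : Ideal (MvPolynomial (Fin n) K)) :
    finrank K (Pool.Agent.H38.Rig.soc I) = finrank K (killed I 1) := by
  have h : (Pool.Agent.H38.Rig.soc I).restrictScalars K = (killed I 1).restrictScalars K := by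
    ext u
    exact mem_soc_iff I u
  have h2 : finrank K ((Pool.Agent.H38.Rig.soc I).restrictScalars K) =
      finrank K ((killed I 1).restrictScalars K) := by rw [h]
  exact h2

/-- the socle inequality (helper38) -/
theorem socle_ineq {N : ℕ} (I : Ideal (MvPolynomial (Fin n) K)) (hN : mm K n ^ N ≤ I)
    (h2 : I ≤ mm K n ^ 2) (hT : Subsingleton (T1 I)) (x : MvPolynomial (Fin n) K)
    (hx : x ∈ mm K n) :
    finrank K (I ⧸ (mm K n • (⊤ : Submodule (MvPolynomial (Fin n) K) I))) *
        finrank K (killed I 1) ≤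
      n * finrank K ((MvPolynomial (Fin n) K ⧸ I) ⧸
        Ideal.span ({Ideal.Quotient.mk I x} ∪ (killed I 1 : Set (MvPolynomial (Fin n) K ⧸ I)))) := by
  have h1 := Pool.Agent.H38.Rig.ineq (K := K) (n := n) (I := I) ⟨N, hN⟩ h2
    ((subsingleton_iff I).1 hT) hx
  rw [finrank_soc] at h1
  have h3 : (Ideal.span {Ideal.Quotient.mk I x} ⊔ Pool.Agent.H38.Rig.soc I :
      Ideal (MvPolynomial (Fin n) K ⧸ I)) =
      Ideal.span ({Ideal.Quotient.mk I x} ∪
        (killed I 1 : Set (MvPolynomial (Fin n) K ⧸ I))) := by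
    rw [Ideal.span_union]
    congr 1
    apply le_antisymm
    · intro u hu
      exact Ideal.subset_span ((mem_soc_iff I u).1 hu)
    · rw [Ideal.span_le]
      intro u hu
      exact (mem_soc_iff I u).2 hu
  rw [h3] at h1
  exact h1

end Pool.Agent.H72.Rigid
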