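import Pool.Agent.H72.Rigid.Num

/-!
# Rigid local algebras: the general inequality (helper72, after helper38)
-/

set_option autoImplicit false

namespace Pool.Agent.H72.Rigid

open Module MvPolynomial Pool.Agent.H12.Rig

variable {K : Type} [Field K] {n : ℕ}

/-- `∂f a = 0` if `a` is killed by `m ^ s` and `f ∈ m ^ (s + 1)` -/
theorem derHom_killed (I : Ideal (MvPolynomial (Fin n) K)) (s : ℕ) (h2 : I ≤ mm K n ^ (s + 1))
    (a : Fin n → MvPolynomial (Fin n) K ⧸ I) (ha : ∀ i, a i ∈ killed I s) :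
    derHom I a = 0 := by
  refine LinearMap.ext fun f => ?_
  rw [derHom_apply]
  refine Finset.sum_eq_zero fun i _ => ?_
  rw [mk_mul_eq_smul]
  exact (Submodule.mem_torsionBySet_iff _ _).1 (ha i) ⟨_, pderiv_mem (h2 f.2) i⟩

theorem derHom_smul (I : Ideal (MvPolynomial (Fin n) K)) (x : MvPolynomial (Fin n) K)
    (a : Fin n → MvPolynomial (Fin n) K ⧸ I) (f : I) :
    derHom I (fun i => Ideal.Quotient.mk I x * a i) f = x • derHom I a f := by
  rw [derHom_apply, derHom_apply, ← mk_mul_eq_smul, Finset.mul_sum]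
  exact Finset.sum_congr rfl fun i _ => by ring

/-- **The general inequality.** -/
theorem rig_ineq (I : Ideal (MvPolynomial (Fin n) K))
    [Module.Finite K (MvPolynomial (Fin n) K ⧸ I)] (s : ℕ) (h2 : I ≤ mm K n ^ (s + 1))
    (a b : ℕ) (x : MvPolynomial (Fin n) K)
    (hx : x ∈ mm K n ^ (a + 1) ∨ x ∈ mm K n ^ (b + 1)) :
    finrank K (Qk I (a + 1)) * finrank K (killed I (b + 1)) ≤
      (n + (a + b)).choose n *
        (finrank K (T1 I) + n * finrank K ((MvPolynomial (Fin n) K ⧸ I) ⧸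
          Ideal.span ({Ideal.Quotient.mk I x} ∪
            (killed I s : Set (MvPolynomial (Fin n) K ⧸ I))))) := by
  classical
  have f1 : Module.Finite K (Qk I (a + 1)) := finite_of_killed (a + 1) (Qk_killed I (a + 1))
  have f2 : Module.Finite K (killed I (b + 1)) :=
    Module.Finite.of_injective ((killed I (b + 1)).subtype.restrictScalars K)
      (Submodule.subtype_injective _)
  let E : (Qk I (a + 1) →ₗ[MvPolynomial (Fin n) K] killed I (b + 1)) →ₗ[K]
      (I →ₗ[MvPolynomial (Fin n) K] (MvPolynomial (Fin n) K ⧸ I)) :=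
    { toFun := fun ψ => (killed I (b + 1)).subtype ∘ₗ ψ ∘ₗ Submodule.mkQ _
      map_add' := fun ψ ψ' => rfl
      map_smul' := fun c ψ => rfl }
  have hE : Function.Injective E := by
    intro ψ ψ' h
    refine LinearMap.ext fun x => ?_
    obtain ⟨f, rfl⟩ := Submodule.mkQ_surjective _ x
    exact Subtype.ext (LinearMap.congr_fun h f)
  have f3 : Module.Finite K (Qk I (a + 1) →ₗ[MvPolynomial (Fin n) K] killed I (b + 1)) :=
    Module.Finite.of_injective E hE
  have h1 := finrank_hom_le (K := K) (n := n) (X' := Qk I (a + 1)) (Y' := killed I (b + 1)) a b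
    (fun g hg x => Qk_killed I (a + 1) g hg x)
    (fun g hg y => Subtype.ext ((Submodule.mem_torsionBySet_iff _ _).1 y.2 ⟨g, hg⟩))
  have e : b + a = a + b := by omega
  have e2 : (n + (a + b)).choose (a + b) = (n + (a + b)).choose n := by
    rw [Nat.add_comm n (a + b), Nat.choose_symm_add]
  rw [e, e2] at h1
  -- the submodule of the maps which vanish on `m^(a+1) I` with values killed by `m^(b+1)`
  let HH : Submodule K (I →ₗ[MvPolynomial (Fin n) K] (MvPolynomial (Fin n) K ⧸ I)) :=
    LinearMap.range E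
  have hHH : finrank K HH =
      finrank K (Qk I (a + 1) →ₗ[MvPolynomial (Fin n) K] killed I (b + 1)) :=
    LinearMap.finrank_range_of_inj hE
  have hxH : ∀ φ ∈ HH, ∀ f : I, x • φ f = 0 := by
    rintro _ ⟨ψ, rfl⟩ f
    show x • ((ψ (Submodule.mkQ _ f) : killed I (b + 1)) : MvPolynomial (Fin n) K ⧸ I) = 0
    rcases hx with hx | hx
    · have h3 : x • (Submodule.mkQ (mm K n ^ (a + 1) •
          (⊤ : Submodule (MvPolynomial (Fin n) K) I)) f) = 0 := Qk_killed I (a + 1) x hx _
      have h4 : x • ψ (Submodule.mkQ _ f) = 0 := by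
        rw [← map_smul, h3, map_zero]
      exact congrArg Subtype.val h4
    · exact (Submodule.mem_torsionBySet_iff _ _).1 (ψ (Submodule.mkQ _ f)).2 ⟨x, hx⟩
  let R := LinearMap.range (derHom I)
  let V : Submodule K (Fin n → MvPolynomial (Fin n) K ⧸ I) := HH.comap (derHom I)
  let Θ : V →ₗ[K] ↥(HH ⊓ R) :=
    LinearMap.codRestrict (HH ⊓ R) ((derHom I).comp V.subtype)
      (fun a => ⟨a.2, ⟨(a : Fin n → MvPolynomial (Fin n) K ⧸ I), rfl⟩⟩)
  have hΘ : Function.Surjective Θ := by
    rintro ⟨φ, hφ1, hφ2⟩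
    obtain ⟨v, hv⟩ := hφ2
    refine ⟨⟨v, ?_⟩, ?_⟩
    · show derHom I v ∈ HH
      rw [hv]
      exact hφ1
    · exact Subtype.ext hv
  let s' : Submodule K (MvPolynomial (Fin n) K ⧸ I) := (killed I s).restrictScalars K
  let x' : (MvPolynomial (Fin n) K ⧸ I) →ₗ[K] (MvPolynomial (Fin n) K ⧸ I) :=
    LinearMap.mulLeft K (Ideal.Quotient.mk I x)
  have hs : ∀ v : Fin n → MvPolynomial (Fin n) K ⧸ I, (∀ i, v i ∈ s') → v ∈ V := by
    intro v hv
    show derHom I v ∈ HH
    rw [derHom_killed I s h2 v hv]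
    exact HH.zero_mem
  have hs0 : ∀ (v : Fin n → MvPolynomial (Fin n) K ⧸ I) (h : ∀ i, v i ∈ s'),
      Θ ⟨v, hs v h⟩ = 0 := by
    intro v hv
    exact Subtype.ext (derHom_killed I s h2 v hv)
  have hx1 : ∀ v ∈ V, derHom I (fun i => x' (v i)) = 0 := by
    intro v hv
    refine LinearMap.ext fun f => ?_
    have h3 : derHom I (fun i => x' (v i)) f = x • derHom I v f := derHom_smul I x v f
    rw [h3]
    exact hxH _ hv f
  have hxV : ∀ v ∈ V, (fun i => x' (v i)) ∈ V := by
    intro v hv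
    show derHom I (fun i => x' (v i)) ∈ HH
    rw [hx1 v hv]
    exact HH.zero_mem
  have hx0 : ∀ (v : Fin n → MvPolynomial (Fin n) K ⧸ I) (h : v ∈ V),
      Θ ⟨fun i => x' (v i), hxV v h⟩ = 0 := by
    intro v hv
    exact Subtype.ext (hx1 v hv)
  have key := Pool.Agent.H38.Rig.lin_ineq (K := K) (n := n) (A := MvPolynomial (Fin n) K ⧸ I)
    (H := ↥(HH ⊓ R)) s' x' V Θ hΘ hs hs0 hxV hx0
  have hJ : LinearMap.range x' ⊔ s' =
      (Ideal.span ({Ideal.Quotient.mk I x} ∪
        (killed I s : Set (MvPolynomial (Fin n) K ⧸ I)))).restrictScalars K := by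
    ext u
    constructor
    · intro hu
      obtain ⟨c, ⟨d, rfl⟩, e, he, rfl⟩ := Submodule.mem_sup.1 hu
      change Ideal.Quotient.mk I x * d + e ∈ Ideal.span _
      exact Ideal.add_mem _ (Ideal.mul_mem_right _ _ (Ideal.subset_span (Or.inl rfl)))
        (Ideal.subset_span (Or.inr he))
    · intro hu
      have hu' : u ∈ Ideal.span ({Ideal.Quotient.mk I x} ∪
        (killed I s : Set (MvPolynomial (Fin n) K ⧸ I))) := hu
      rw [Ideal.span_union] at hu'
      obtain ⟨c, hc, e, he, rfl⟩ := Submodule.mem_sup.1 hu'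
      obtain ⟨d, rfl⟩ := Ideal.mem_span_singleton'.1 hc
      refine Submodule.add_mem_sup ⟨d, ?_⟩ ?_
      · change Ideal.Quotient.mk I x * d = _
        rw [mul_comm]
      · show e ∈ killed I s
        refine Submodule.span_induction (p := fun e _ => e ∈ killed I s) ?_ ?_ ?_ ?_ he
        · intro y hy
          exact hy
        · exact (killed I s).zero_mem
        · intro y z _ _ hy hz
          exact (killed I s).add_mem hy hz
        · intro r y _ hy
          obtain ⟨g, rfl⟩ := Ideal.Quotient.mk_surjective r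
          rw [smul_eq_mul, mk_mul_eq_smul]
          exact (killed I s).smul_mem g hy
  rw [hJ] at key
  have hq := (Submodule.Quotient.restrictScalarsEquiv K
    (Ideal.span ({Ideal.Quotient.mk I x} ∪
        (killed I s : Set (MvPolynomial (Fin n) K ⧸ I))))).finrank_eq
  rw [hq] at key
  -- `HH` modulo the derivations
  have h5 : finrank K HH ≤ finrank K (T1 I) + finrank K ↥(HH ⊓ R) := by
    let q : HH →ₗ[K] T1 I := (Submodule.mkQ R).comp HH.subtype
    have h6 := LinearMap.finrank_range_add_finrank_ker (K := K) (V := ↥HH) (V₂ := T1 I) q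
    have h7 : finrank K (LinearMap.range q) ≤ finrank K (T1 I) := Submodule.finrank_le _
    have h8 : finrank K (LinearMap.ker q) ≤ finrank K ↥(HH ⊓ R) := by
      have hk : ∀ φ : LinearMap.ker q, ((φ : HH) : I →ₗ[MvPolynomial (Fin n) K]
          (MvPolynomial (Fin n) K ⧸ I)) ∈ HH ⊓ R := by
        intro φ
        refine ⟨(φ : HH).2, ?_⟩
        have h9 := LinearMap.mem_ker.1 φ.2
        exact (Submodule.Quotient.mk_eq_zero R).1 h9
      let j : LinearMap.ker q →ₗ[K] ↥(HH ⊓ R) :=
        LinearMap.codRestrict (HH ⊓ R) (HH.subtype.comp (LinearMap.ker q).subtype) hk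
      have hj : Function.Injective j := by
        intro u v huv
        have h10 : ((j u : ↥(HH ⊓ R)) : I →ₗ[MvPolynomial (Fin n) K]
            (MvPolynomial (Fin n) K ⧸ I)) = (j v : ↥(HH ⊓ R)) := by rw [huv]
        exact Subtype.ext (Subtype.ext h10)
      exact LinearMap.finrank_le_finrank_of_injective hj
    omega
  rw [mul_comm ((n + (a + b)).choose n)]
  refine h1.trans (Nat.mul_le_mul_right _ ?_)
  rw [← hHH]
  omega

/-- the elements of `A / (x_0 A + (0 : m^s))` -/
theorem finrank_mod_var {m : ℕ} (I : Ideal (MvPolynomial (Fin (m + 1)) K)) (s c : ℕ)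
    (h1 : mm K (m + 1) ^ (s + 1 + c) ≤ I) :
    finrank K ((MvPolynomial (Fin (m + 1)) K ⧸ I) ⧸
        Ideal.span ({Ideal.Quotient.mk I (X 0)} ∪
          (killed I s : Set (MvPolynomial (Fin (m + 1)) K ⧸ I)))) ≤ (m + c).choose c := by
  set J := Ideal.span ({Ideal.Quotient.mk I (X 0)} ∪
          (killed I s : Set (MvPolynomial (Fin (m + 1)) K ⧸ I))) with hJ
  let π : MvPolynomial (Fin (m + 1)) K →ₐ[K] ((MvPolynomial (Fin (m + 1)) K ⧸ I) ⧸ J) :=
    (Ideal.Quotient.mkₐ K J).comp (Ideal.Quotient.mkₐ K I)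
  have hπ : Function.Surjective π :=
    (Ideal.Quotient.mkₐ_surjective K J).comp (Ideal.Quotient.mkₐ_surjective K I)
  let ρ : MvPolynomial (Fin (m + 1)) K →ₐ[K] MvPolynomial (Fin m) K :=
    aeval (Fin.cons 0 X : Fin (m + 1) → MvPolynomial (Fin m) K)
  let ι : MvPolynomial (Fin m) K →ₐ[K] MvPolynomial (Fin (m + 1)) K := rename Fin.succ
  have hπρ : ∀ f, π (ι (ρ f)) = π f := by
    intro f
    have h : (π.comp ι).comp ρ = π := by
      apply MvPolynomial.algHom_ext
      intro i
      refine Fin.cases ?_ (fun j => ?_) i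
      · show π (ι (ρ (X 0))) = π (X 0)
        have h2 : ρ (X 0) = 0 := by
          show aeval (Fin.cons 0 X : Fin (m + 1) → MvPolynomial (Fin m) K) (X 0) = 0
          rw [aeval_X, Fin.cons_zero]
        rw [h2, map_zero, map_zero]
        symm
        show Ideal.Quotient.mk J (Ideal.Quotient.mk I (X 0)) = 0
        rw [Ideal.Quotient.eq_zero_iff_mem]
        exact Ideal.subset_span (Or.inl rfl)
      · show π (ι (ρ (X j.succ))) = π (X j.succ)
        have h2 : ρ (X j.succ) = X j := by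
          show aeval (Fin.cons 0 X : Fin (m + 1) → MvPolynomial (Fin m) K) (X j.succ) = X j
          rw [aeval_X, Fin.cons_succ]
        have h3 : ι (X j) = X j.succ := by
          show rename Fin.succ (X j) = X j.succ
          rw [rename_X]
        rw [h2, h3]
    exact DFunLike.congr_fun h f
  have hπm : ∀ g ∈ mm K (m + 1) ^ (c + 1), π g = 0 := by
    intro g hg
    show Ideal.Quotient.mk J (Ideal.Quotient.mk I g) = 0
    rw [Ideal.Quotient.eq_zero_iff_mem]
    refine Ideal.subset_span (Or.inr ?_)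
    show Ideal.Quotient.mk I g ∈ killed I s
    rw [Submodule.mem_torsionBySet_iff]
    rintro ⟨y, hy⟩
    show y • Ideal.Quotient.mk I g = 0
    rw [← mk_mul_eq_smul, ← map_mul, Ideal.Quotient.eq_zero_iff_mem]
    refine h1 ?_
    have h5 := Ideal.mul_mem_mul hy hg
    rw [← pow_add] at h5
    have e : s + (c + 1) = s + 1 + c := by omega
    rwa [e] at h5
  have hι : ∀ g ∈ mm K m ^ (c + 1), ι g ∈ mm K (m + 1) ^ (c + 1) := by
    intro g hg
    have h2 : (mm K m).map (ι : MvPolynomial (Fin m) K →+* MvPolynomial (Fin (m + 1)) K) ≤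
        mm K (m + 1) := by
      rw [Ideal.map_span, Ideal.span_le]
      rintro _ ⟨_, ⟨i, rfl⟩, rfl⟩
      show ι (X i) ∈ mm K (m + 1)
      have h3 : ι (X i) = X i.succ := by
        show rename Fin.succ (X i) = X i.succ
        rw [rename_X]
      rw [h3]
      exact Ideal.subset_span ⟨_, rfl⟩
    have h4 := Ideal.mem_map_of_mem (ι : MvPolynomial (Fin m) K →+* MvPolynomial (Fin (m + 1)) K) hg
    rw [Ideal.map_pow] at h4
    exact Ideal.pow_right_mono h2 (c + 1) h4
  let G : T K m c →ₗ[K] ((MvPolynomial (Fin (m + 1)) K ⧸ I) ⧸ J) :=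
    π.toLinearMap ∘ₗ ι.toLinearMap ∘ₗ val K m c
  have hG : Function.Surjective G := by
    intro u
    obtain ⟨f, rfl⟩ := hπ u
    obtain ⟨g, hg⟩ := trunc_exists c (ρ f)
    refine ⟨g, ?_⟩
    show π (ι (val K m c g)) = π f
    rw [← hπρ f]
    have h5 := hπm _ (hι _ hg)
    rw [map_sub, map_sub] at h5
    exact (sub_eq_zero.1 h5).symm
  have h6 := LinearMap.finrank_range_le G
  rw [LinearMap.range_eq_top.2 hG, finrank_top, finrank_T] at h6
  exact h6

/-- **Generators times socle.** -/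
theorem gens_mul_socle (hn : 1 ≤ n) (I : Ideal (MvPolynomial (Fin n) K)) (s c : ℕ)
    (h1 : mm K n ^ (s + 1 + c) ≤ I) (h2 : I ≤ mm K n ^ (s + 1)) :
    finrank K (Qk I 1) * finrank K (killed I 1) ≤
      finrank K (T1 I) + n * (n + c - 1).choose c := by
  obtain ⟨m, rfl⟩ : ∃ m, n = m + 1 := ⟨n - 1, by omega⟩
  have := quot_finite I h1
  have h3 := rig_ineq I s h2 0 0 (X 0) (Or.inl (by
    rw [zero_add, pow_one]
    exact Ideal.subset_span ⟨0, rfl⟩))
  have h4 := finrank_mod_var I s c h1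
  have e : m + 1 + c - 1 = m + c := by omega
  have e2 : (m + 1 + (0 + 0)).choose (m + 1) = 1 := Nat.choose_self _
  rw [e2, one_mul] at h3
  rw [e]
  exact h3.trans (Nat.add_le_add_left (Nat.mul_le_mul_left _ h4) _)

end Pool.Agent.H72.Rigid
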