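import Pool.Agent.H72.Rigid.Basic

/-!
# Rigid local algebras: the number of generators is at least the number of variables (helper72)
-/

set_option autoImplicit false

namespace Pool.Agent.H72.Rigid

open Module MvPolynomial Pool.Agent.H12.Rig

variable {K : Type*} [Field K] {n : ℕ}

/-- the substitution which kills the variables with index `< k` -/
noncomputable def kill (K : Type*) [Field K] (n k : ℕ) :
    MvPolynomial (Fin n) K →ₐ[K] MvPolynomial (Fin n) K :=
  aeval fun i : Fin n => if (i : ℕ) < k then 0 else X i

theorem kill_X (k : ℕ) (i : Fin n) :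
    kill K n k (X i) = if (i : ℕ) < k then 0 else X i := aeval_X _ _

theorem kill_kill {j k : ℕ} (hjk : j ≤ k) (f : MvPolynomial (Fin n) K) :
    kill K n k (kill K n j f) = kill K n k f := by
  have h : (kill K n k).comp (kill K n j) = kill K n k := by
    apply MvPolynomial.algHom_ext
    intro i
    rw [AlgHom.comp_apply, kill_X]
    split_ifs with h
    · rw [map_zero, kill_X, if_pos (by omega)]
    · rfl
  exact AlgHom.congr_fun h f

theorem ker_kill : RingHom.ker (kill K n n) = mm K n := by
  apply le_antisymm
  · intro f hf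
    have h1 : kill K n n f = C (constantCoeff f) := by
      have h : kill K n n = (Algebra.ofId K (MvPolynomial (Fin n) K)).comp
          (aeval (fun _ : Fin n => (0 : K))) := by
        apply MvPolynomial.algHom_ext
        intro i
        rw [kill_X, if_pos i.2, AlgHom.comp_apply, aeval_X, map_zero]
      rw [h, AlgHom.comp_apply, aeval_zero']
      simp [Algebra.ofId_apply]
    have h2 : kill K n n f = 0 := hf
    rw [h1, C_eq_zero] at h2
    have h3 : f ∈ mm K n ^ 1 := by
      rw [mem_mm_pow]
      intro x hx
      have h4 : x = 0 := by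
        rw [← Finsupp.degree_eq_zero_iff]
        omega
      rw [h4, ← constantCoeff_eq]
      exact h2
    rwa [pow_one] at h3
  · rw [Ideal.span_le]
    rintro _ ⟨i, rfl⟩
    show kill K n n (X i) = 0
    rw [kill_X, if_pos i.2]

theorem le_height (k : ℕ) (hk : k ≤ n) : (k : ℕ∞) ≤ (RingHom.ker (kill K n k)).height := by
  induction k with
  | zero => simp
  | succ k ih =>
    have h1 : RingHom.ker (kill K n k) < RingHom.ker (kill K n (k + 1)) := by
      refine lt_of_le_of_ne ?_ ?_
      · intro f hf
        have h2 : kill K n k f = 0 := hf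
        show kill K n (k + 1) f = 0
        rw [← kill_kill (Nat.le_succ k), h2, map_zero]
      · intro he
        have h2 : (X ⟨k, hk⟩ : MvPolynomial (Fin n) K) ∈ RingHom.ker (kill K n (k + 1)) := by
          show kill K n (k + 1) (X ⟨k, hk⟩) = 0
          rw [kill_X, if_pos (Nat.lt_succ_self k)]
        rw [← he] at h2
        have h3 : kill K n k (X ⟨k, hk⟩) = 0 := h2
        rw [kill_X, if_neg (lt_irrefl k)] at h3
        exact X_ne_zero _ h3
    have : (RingHom.ker (kill K n k)).IsPrime := RingHom.ker_isPrime _
    have : (RingHom.ker (kill K n (k + 1))).IsPrime := RingHom.ker_isPrime _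
    have h4 := Ideal.height_add_one_le_of_lt_of_isPrime h1
    push_cast
    exact (add_le_add_left (ih (by omega)) 1).trans h4

theorem mm_isPrime : (mm K n).IsPrime := by
  rw [← ker_kill]
  exact RingHom.ker_isPrime _

theorem height_mm : (n : ℕ∞) ≤ (mm K n).height := by
  rw [← ker_kill]
  exact le_height n le_rfl

/-- Krull: an ideal which contains a power of `m`, lies in `m` and is generated up to `m I` by
`k` elements has `k ≥ n` -/
theorem n_le_gens {N : ℕ} (I : Ideal (MvPolynomial (Fin n) K)) (hN : mm K n ^ N ≤ I)
    (hI : I ≤ mm K n) : n ≤ finrank K (Q I) := by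
  obtain ⟨f, hJ⟩ := exists_gens I
  set J : Ideal (MvPolynomial (Fin n) K) :=
    Ideal.span (Set.range fun j => (f j : MvPolynomial (Fin n) K)) with hJdef
  have hJI : J ≤ I := by
    rw [hJdef, Ideal.span_le]
    rintro _ ⟨j, rfl⟩
    exact (f j).2
  have hfg : (I : Submodule (MvPolynomial (Fin n) K) (MvPolynomial (Fin n) K)).FG :=
    IsNoetherian.noetherian _
  obtain ⟨r, hr, hrI⟩ := Submodule.exists_sub_one_mem_and_smul_le_of_fg_of_le_sup
    (I := mm K n) (N := J) hfg le_rfl hJ
  have hprime := mm_isPrime (K := K) (n := n)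
  have hmin : mm K n ∈ J.minimalPrimes := by
    refine ⟨⟨hprime, hJI.trans hI⟩, ?_⟩
    rintro p ⟨hp, hJp⟩ hpm
    have hrp : r ∉ p := by
      intro h
      have h1 : (1 : MvPolynomial (Fin n) K) ∈ mm K n := by
        have h2 := Ideal.sub_mem _ (hpm h) hr
        rwa [sub_sub_cancel] at h2
      exact hprime.ne_top ((Ideal.eq_top_iff_one _).2 h1)
    have hIp : I ≤ p := by
      intro x hx
      have h1 : r * x ∈ J := hrI (Submodule.smul_mem_pointwise_smul x r I hx)
      exact (hp.mem_or_mem (hJp h1)).resolve_left hrp
    exact Ideal.IsPrime.le_of_pow_le (hN.trans hIp)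
  have h1 := Ideal.height_le_card_of_mem_minimalPrimes_span (Set.finite_range _) hmin
  have h2 := (height_mm (K := K) (n := n)).trans h1
  have h3 : (Set.range fun j => (f j : MvPolynomial (Fin n) K)).ncard ≤ finrank K (Q I) := by
    rw [← Set.image_univ]
    refine (Set.ncard_image_le Set.finite_univ).trans ?_
    rw [Set.ncard_univ, Nat.card_fin]
  exact (Nat.cast_le.1 h2).trans h3

end Pool.Agent.H72.Rigid
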