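import Pool.Agent.H72.Rigid.Extra

/-!
# Numerical consequences of the inequality for ideals between two powers

Sharper versions of `num_ineq` and `num_large`.
-/

namespace Pool.Agent.H72.Rigid

open Module

/-- the inequality with powers -/
theorem num_pow (n s c : ℕ) (hn : 1 ≤ n) (hs : 1 ≤ s)
    (h : (n + (s - 1) - 1).choose (s - 1) *
        ∑ j : Fin (c + 1), (n + (s - 1 + 1 + j) - 1).choose (s - 1 + 1 + j) ≤
      (n * (n + c).choose c) * (n + (c + c)).choose n) :
    n * (c + 1) * s ^ (2 * n - 2) ≤ ((c + n) * (2 * c + n)) ^ n := by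
  obtain ⟨m, rfl⟩ : ∃ m, n = m + 1 := ⟨n - 1, by omega⟩
  obtain ⟨t, rfl⟩ : ∃ t, s = t + 1 := ⟨s - 1, by omega⟩
  have e0 : t + 1 - 1 = t := by omega
  rw [e0] at h
  have e1 : (m + 1 + t - 1).choose t = (t + m).choose m := by
    have e : m + 1 + t - 1 = t + m := by omega
    rw [e, Nat.choose_symm_add]
  have l1 : (t + 1) ^ m ≤ m.factorial * (t + m).choose m := by
    have h1 := Nat.pow_succ_le_ascFactorial (t + 1) m
    have h2 := Nat.ascFactorial_eq_factorial_mul_choose t m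
    rwa [h2] at h1
  have l2 : ∀ j : Fin (c + 1), (t + 1) ^ m ≤
      m.factorial * (m + 1 + (t + 1 + j) - 1).choose (t + 1 + j) := by
    intro j
    have e : m + 1 + (t + 1 + (j : ℕ)) - 1 = (t + 1 + j) + m := by omega
    rw [e, Nat.choose_symm_add]
    have h1 := Nat.pow_succ_le_ascFactorial (t + 1 + j + 1) m
    have h2 := Nat.ascFactorial_eq_factorial_mul_choose (t + 1 + j) m
    rw [h2] at h1
    exact (Nat.pow_le_pow_left (by omega) m).trans h1
  have l3 : (c + 1) * (t + 1) ^ m ≤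
      m.factorial * ∑ j : Fin (c + 1), (m + 1 + (t + 1 + j) - 1).choose (t + 1 + j) := by
    rw [Finset.mul_sum]
    calc (c + 1) * (t + 1) ^ m = ∑ _j : Fin (c + 1), (t + 1) ^ m := by
          rw [Finset.sum_const, Finset.card_univ, Fintype.card_fin, smul_eq_mul]
      _ ≤ _ := Finset.sum_le_sum fun j _ => l2 j
  have u1 : (m + 1).factorial * (m + 1 + c).choose c ≤ (c + (m + 1)) ^ (m + 1) := by
    have h1 := Nat.ascFactorial_le_pow_add c (m + 1)
    have h2 := Nat.ascFactorial_eq_factorial_mul_choose c (m + 1)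
    rw [h2] at h1
    have e : (m + 1 + c).choose c = (c + (m + 1)).choose (m + 1) := by
      rw [Nat.add_comm (m + 1) c, Nat.choose_symm_add]
    rwa [e]
  have u2 : (m + 1).factorial * (m + 1 + (c + c)).choose (m + 1) ≤
      (c + c + (m + 1)) ^ (m + 1) := by
    have h1 := Nat.ascFactorial_le_pow_add (c + c) (m + 1)
    have h2 := Nat.ascFactorial_eq_factorial_mul_choose (c + c) (m + 1)
    rw [h2] at h1
    rwa [Nat.add_comm (m + 1) (c + c)]
  rw [e1] at h
  set S0 := ∑ j : Fin (c + 1), (m + 1 + (t + 1 + j) - 1).choose (t + 1 + j)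
  set A0 := (t + m).choose m
  set B0 := (m + 1 + c).choose c
  set C0 := (m + 1 + (c + c)).choose (m + 1)
  have hf : (m + 1).factorial = (m + 1) * m.factorial := Nat.factorial_succ m
  have k1 : (m + 1) * ((m + 1) * (c + 1) * ((t + 1) ^ m * (t + 1) ^ m)) ≤
      (m + 1) * ((c + (m + 1)) ^ (m + 1) * (c + c + (m + 1)) ^ (m + 1)) := by
    calc (m + 1) * ((m + 1) * (c + 1) * ((t + 1) ^ m * (t + 1) ^ m))
        = (m + 1) ^ 2 * (((t + 1) ^ m) * ((c + 1) * (t + 1) ^ m)) := by ring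
      _ ≤ (m + 1) ^ 2 * ((m.factorial * A0) * (m.factorial * S0)) :=
          Nat.mul_le_mul_left _ (Nat.mul_le_mul l1 l3)
      _ = ((m + 1).factorial) ^ 2 * (A0 * S0) := by rw [hf]; ring
      _ ≤ ((m + 1).factorial) ^ 2 * (((m + 1) * B0) * C0) := Nat.mul_le_mul_left _ h
      _ = (m + 1) * (((m + 1).factorial * B0) * ((m + 1).factorial * C0)) := by ring
      _ ≤ _ := Nat.mul_le_mul_left _ (Nat.mul_le_mul u1 u2)
  have k2 := Nat.le_of_mul_le_mul_left k1 (Nat.succ_pos m)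
  have e2 : 2 * (m + 1) - 2 = m + m := by omega
  rw [e2, pow_add, mul_pow, two_mul c]
  exact k2

/-- numerical consequence for many variables: `c = s - 2 ≥ 1` -/
theorem num_many (n c : ℕ) (hn : 1 ≤ n)
    (hb : 2 * (c + 2) ^ 2 * (2 * c + 3) < n * (n + 4 * c + 7))
    (h : (n + (c + 2) - 1).choose (c + 2) *
        ∑ j : Fin (c + 1 + 1), (n + (c + 2 + 1 + j) - 1).choose (c + 2 + 1 + j) ≤
      (n * (n + (c + 1)).choose (c + 1)) * (n + (c + 1 + (c + 1))).choose n) : False := by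
  -- the two largest terms of the sum
  have l3 : (n + (2 * c + 3) - 1).choose (2 * c + 3) + (n + (2 * c + 4) - 1).choose (2 * c + 4) ≤
      ∑ j : Fin (c + 1 + 1), (n + (c + 2 + 1 + j) - 1).choose (c + 2 + 1 + j) := by
    rw [Fin.sum_univ_castSucc, Fin.sum_univ_castSucc]
    have e1 : c + 2 + 1 + ((Fin.last (c + 1) : Fin (c + 1 + 1)) : ℕ) = 2 * c + 4 := by
      rw [Fin.val_last]; omega
    have e2 : c + 2 + 1 + (((Fin.last c : Fin (c + 1)).castSucc : Fin (c + 1 + 1)) : ℕ) =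
        2 * c + 3 := by
      rw [Fin.val_castSucc, Fin.val_last]; omega
    rw [e1, e2]
    omega
  have a1 : (n + (c + 1)).choose (c + 1) * n = (n + (c + 1)).choose (c + 2) * (c + 2) := by
    have h1 := Nat.choose_succ_right_eq (n + (c + 1)) (c + 1)
    have e : n + (c + 1) - (c + 1) = n := by omega
    rw [e] at h1
    exact h1.symm
  have a2 : (n + (2 * c + 2)).choose (2 * c + 3) * (2 * c + 3) =
      (n + (2 * c + 2)).choose (2 * c + 2) * n := by
    have h1 := Nat.choose_succ_right_eq (n + (2 * c + 2)) (2 * c + 2)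
    have e : n + (2 * c + 2) - (2 * c + 2) = n := by omega
    rwa [e] at h1
  have a3 : (n + (2 * c + 2) + 1) * (n + (2 * c + 2)).choose (2 * c + 3) =
      (n + (2 * c + 2) + 1).choose (2 * c + 3 + 1) * (2 * c + 3 + 1) :=
    Nat.add_one_mul_choose_eq _ _
  have e1 : n + (c + 2) - 1 = n + (c + 1) := by omega
  have e2 : n + (2 * c + 3) - 1 = n + (2 * c + 2) := by omega
  have e3 : n + (2 * c + 4) - 1 = n + (2 * c + 2) + 1 := by omega
  have e4 : (n + (c + 1 + (c + 1))).choose n = (n + (2 * c + 2)).choose (2 * c + 2) := by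
    have e : c + 1 + (c + 1) = 2 * c + 2 := by omega
    rw [e, Nat.add_comm n, Nat.choose_symm_add]
  rw [e1, e4] at h
  rw [e2, e3] at l3
  set S0 := ∑ j : Fin (c + 1 + 1), (n + (c + 2 + 1 + j) - 1).choose (c + 2 + 1 + j)
  set A0 := (n + (c + 1)).choose (c + 2)
  set B0 := (n + (c + 1)).choose (c + 1)
  set C0 := (n + (2 * c + 2)).choose (2 * c + 2) with hC0
  set D0 := (n + (2 * c + 2)).choose (2 * c + 3)
  set E0 := (n + (2 * c + 2) + 1).choose (2 * c + 4)
  have hA : 0 < A0 := Nat.choose_pos (by omega)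
  have hC : 0 < C0 := Nat.choose_pos (by omega)
  have h1 : A0 * S0 ≤ A0 * ((c + 2) * C0) := by
    calc A0 * S0 ≤ (n * B0) * C0 := h
      _ = (B0 * n) * C0 := by ring
      _ = (A0 * (c + 2)) * C0 := by rw [a1]
      _ = A0 * ((c + 2) * C0) := by ring
  have h2 : S0 ≤ (c + 2) * C0 := Nat.le_of_mul_le_mul_left h1 hA
  have h3 : D0 + E0 ≤ (c + 2) * C0 := l3.trans h2
  have a3' : (n + (2 * c + 2) + 1) * D0 = E0 * (2 * c + 4) := a3
  have h4 : (D0 + E0) * ((2 * c + 3) * (2 * c + 4)) = (n * (n + 4 * c + 7)) * C0 := by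
    calc (D0 + E0) * ((2 * c + 3) * (2 * c + 4))
        = (D0 * (2 * c + 3)) * (2 * c + 4) + (E0 * (2 * c + 4)) * (2 * c + 3) := by ring
      _ = (C0 * n) * (2 * c + 4) + ((n + (2 * c + 2) + 1) * D0) * (2 * c + 3) := by
          rw [a2, ← a3']
      _ = (C0 * n) * (2 * c + 4) + (n + (2 * c + 2) + 1) * (D0 * (2 * c + 3)) := by ring
      _ = (C0 * n) * (2 * c + 4) + (n + (2 * c + 2) + 1) * (C0 * n) := by rw [a2]
      _ = (n * (n + 4 * c + 7)) * C0 := by ring
  have h5 : (n * (n + 4 * c + 7)) * C0 ≤ (2 * (c + 2) ^ 2 * (2 * c + 3)) * C0 := by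
    rw [← h4]
    calc (D0 + E0) * ((2 * c + 3) * (2 * c + 4)) ≤
          ((c + 2) * C0) * ((2 * c + 3) * (2 * c + 4)) := Nat.mul_le_mul_right _ h3
      _ = _ := by ring
  have h6 := Nat.le_of_mul_le_mul_right h5 hC
  omega

open Pool.Agent.H12.Rig in
theorem nm_grow (n j : ℕ) (hn : 1 ≤ n) : nm (n + 1) j * n = nm n j * (n + j) := by
  obtain ⟨m, rfl⟩ : ∃ m, n = m + 1 := ⟨n - 1, by omega⟩
  unfold nm
  have e1 : m + 1 + 1 + j - 1 = m + j + 1 := by omega
  have e2 : m + 1 + j - 1 = m + j := by omega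
  have h := Nat.add_one_mul_choose_eq (m + j) m
  have e3 : (m + j + 1).choose (m + 1) = (m + j + 1).choose j := by
    have e : m + j + 1 = (m + 1) + j := by omega
    rw [e, Nat.choose_symm_add]
  have e4 : (m + j).choose m = (m + j).choose j := by
    rw [Nat.choose_symm_add]
  rw [e3, e4] at h
  rw [e1, e2, ← h]
  ring

open Pool.Agent.H12.Rig in
theorem nm_pos (n j : ℕ) (hn : 1 ≤ n) : 0 < nm n j := by
  unfold nm
  exact Nat.choose_pos (by omega)

open Pool.Agent.H12.Rig in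
theorem half_step (n c : ℕ) (hn : 1 ≤ n) (hc : 1 ≤ c)
    (h : (2 * c + 1) * nm n (c + 1) < n * nm n (2 * c)) :
    (2 * c + 1) * nm (n + 1) (c + 1) < (n + 1) * nm (n + 1) (2 * c) := by
  have h1 := nm_grow n (c + 1) hn
  have h2 := nm_grow n (2 * c) hn
  have h3 := nm_pos n (2 * c) hn
  set a := nm n (c + 1)
  set b := nm n (2 * c)
  set a' := nm (n + 1) (c + 1)
  set b' := nm (n + 1) (2 * c)
  have k1 : ((2 * c + 1) * a') * n < ((n + 1) * b') * n := by
    calc ((2 * c + 1) * a') * n = (2 * c + 1) * (a' * n) := by ring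
      _ = ((2 * c + 1) * a) * (n + (c + 1)) := by rw [h1]; ring
      _ < (n * b) * (n + (c + 1)) := Nat.mul_lt_mul_of_pos_right h (by omega)
      _ ≤ ((n + 1) * b) * (n + 2 * c) :=
          Nat.mul_le_mul (Nat.mul_le_mul_right _ (by omega)) (by omega)
      _ = (n + 1) * (b' * n) := by rw [h2]; ring
      _ = ((n + 1) * b') * n := by ring
  exact Nat.lt_of_mul_lt_mul_right k1

open Pool.Agent.H12.Rig in
theorem half_mono (n c : ℕ) (hn : 1 ≤ n) (hc : 1 ≤ c)
    (h : (2 * c + 1) * nm n (c + 1) < n * nm n (2 * c)) (m : ℕ) (hm : n ≤ m) :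
    (2 * c + 1) * nm m (c + 1) < m * nm m (2 * c) := by
  induction m, hm using Nat.le_induction with
  | base => exact h
  | succ k hk ih => exact half_step k c (by omega) hc ih

open Pool.Agent.H12.Rig in
theorem half_pow (m c : ℕ) (hc : m + 3 ≤ c) :
    3 ^ m * nm (m + 1) (c + 1) ≤ 2 ^ m * nm (m + 1) (2 * c) := by
  induction m with
  | zero =>
    unfold nm
    have e1 : 0 + 1 + (c + 1) - 1 = c + 1 := by omega
    have e2 : 0 + 1 + 2 * c - 1 = 2 * c := by omega
    rw [e1, e2, Nat.choose_self, Nat.choose_self]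
    simp
  | succ k ih =>
    have ih := ih (by omega)
    have h1 := nm_grow (k + 1) (c + 1) (by omega)
    have h2 := nm_grow (k + 1) (2 * c) (by omega)
    set a := nm (k + 1) (c + 1)
    set b := nm (k + 1) (2 * c)
    set a' := nm (k + 1 + 1) (c + 1)
    set b' := nm (k + 1 + 1) (2 * c)
    have k1 : (3 ^ (k + 1) * a') * (k + 1) ≤ (2 ^ (k + 1) * b') * (k + 1) := by
      calc (3 ^ (k + 1) * a') * (k + 1) = 3 ^ (k + 1) * (a' * (k + 1)) := by ring
        _ = (3 ^ k * a) * (3 * (k + 1 + (c + 1))) := by rw [h1]; ring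
        _ ≤ (2 ^ k * b) * (2 * (k + 1 + 2 * c)) := Nat.mul_le_mul ih (by omega)
        _ = 2 ^ (k + 1) * (b' * (k + 1)) := by rw [h2]; ring
        _ = _ := by ring
    exact Nat.le_of_mul_le_mul_right k1 (by omega)

open Pool.Agent.H12.Rig in
theorem half_of_pow (n c : ℕ) (hn : 1 ≤ n) (hc : n + 2 ≤ c)
    (h : (2 * c + 1) * 2 ^ (n - 1) < n * 3 ^ (n - 1)) :
    (2 * c + 1) * nm n (c + 1) < n * nm n (2 * c) := by
  obtain ⟨m, rfl⟩ : ∃ m, n = m + 1 := ⟨n - 1, by omega⟩
  have e : m + 1 - 1 = m := by omega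
  rw [e] at h
  have h1 := half_pow m c (by omega)
  have h3 := nm_pos (m + 1) (2 * c) hn
  set a := nm (m + 1) (c + 1)
  set b := nm (m + 1) (2 * c)
  have k1 : ((2 * c + 1) * a) * 3 ^ m < ((m + 1) * b) * 3 ^ m := by
    calc ((2 * c + 1) * a) * 3 ^ m = (2 * c + 1) * (3 ^ m * a) := by ring
      _ ≤ (2 * c + 1) * (2 ^ m * b) := Nat.mul_le_mul_left _ h1
      _ = ((2 * c + 1) * 2 ^ m) * b := by ring
      _ < ((m + 1) * 3 ^ m) * b := Nat.mul_lt_mul_of_pos_right h h3
      _ = ((m + 1) * b) * 3 ^ m := by ring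
  exact Nat.lt_of_mul_lt_mul_right k1

theorem pow_aux (d : ℕ) : (2 * d + 13) * 2 ^ (d + 3) < (d + 4) * 3 ^ (d + 3) := by
  induction d with
  | zero => norm_num
  | succ k ih =>
    have e : k + 1 + 3 = (k + 3) + 1 := by omega
    rw [e, pow_succ 2 (k + 3), pow_succ 3 (k + 3)]
    have h1 : (2 * (k + 1) + 13) * (2 ^ (k + 3) * 2) ≤ 3 * ((2 * k + 13) * 2 ^ (k + 3)) := by
      have h2 : (2 * (k + 1) + 13) * 2 ≤ 3 * (2 * k + 13) := by omega
      calc (2 * (k + 1) + 13) * (2 ^ (k + 3) * 2) = ((2 * (k + 1) + 13) * 2) * 2 ^ (k + 3) := by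
            ring
        _ ≤ (3 * (2 * k + 13)) * 2 ^ (k + 3) := Nat.mul_le_mul_right _ h2
        _ = _ := by ring
    have h3 : 3 * ((k + 4) * 3 ^ (k + 3)) ≤ (k + 1 + 4) * (3 ^ (k + 3) * 3) := by
      calc 3 * ((k + 4) * 3 ^ (k + 3)) = (k + 4) * (3 ^ (k + 3) * 3) := by ring
        _ ≤ _ := Nat.mul_le_mul_right _ (by omega)
    omega

open Pool.Agent.H12.Rig in
/-- **Half of the order, many variables.** -/
theorem half_all (n c : ℕ) (hn : 4 ≤ n) (hc : 1 ≤ c)
    (h : (2 * c + 1) * 2 ^ (n - 1) < n * 3 ^ (n - 1)) :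
    (2 * c + 1) * nm n (c + 1) < n * nm n (2 * c) := by
  rcases Nat.lt_or_ge c (n + 2) with h1 | h1
  · rcases Nat.lt_or_ge c 6 with h2 | h2
    · refine half_mono 4 c (by omega) hc ?_ n hn
      unfold nm
      interval_cases c <;> decide
    · obtain ⟨d, rfl⟩ : ∃ d, c = d + 6 := ⟨c - 6, by omega⟩
      refine half_mono (d + 4) (d + 6) (by omega) hc ?_ n (by omega)
      refine half_of_pow (d + 4) (d + 6) (by omega) (by omega) ?_
      have e1 : d + 4 - 1 = d + 3 := by omega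
      have e2 : 2 * (d + 6) + 1 = 2 * d + 13 := by omega
      rw [e1, e2]
      exact pow_aux d
  · exact half_of_pow n c (by omega) h1 h

open Pool.Agent.H12.Rig in
/-- numerical consequence for `s ≥ 2 c + 1` -/
theorem num_half (n s c : ℕ) (hn : 1 ≤ n) (hs : 2 * c + 1 ≤ s)
    (h : (n + (s - 1) - 1).choose (s - 1) *
        ∑ j : Fin (c + 1), (n + (s - 1 + 1 + j) - 1).choose (s - 1 + 1 + j) ≤
      (n * (n + c).choose c) * (n + (c + c)).choose n) :
    n * (n + 2 * c - 1).choose (2 * c) ≤ (2 * c + 1) * (n + (c + 1) - 1).choose (c + 1) := by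
  have hmono := nm_mono (n := n) hn
  have b1 : (n + 2 * c - 1).choose (2 * c) ≤ (n + (s - 1) - 1).choose (s - 1) :=
    hmono (show 2 * c ≤ s - 1 by omega)
  have b2 : (c + 1) * (n + (2 * c + 1) - 1).choose (2 * c + 1) ≤
      ∑ j : Fin (c + 1), (n + (s - 1 + 1 + j) - 1).choose (s - 1 + 1 + j) := by
    calc (c + 1) * (n + (2 * c + 1) - 1).choose (2 * c + 1)
        = ∑ _j : Fin (c + 1), (n + (2 * c + 1) - 1).choose (2 * c + 1) := by
          rw [Finset.sum_const, Finset.card_univ, Fintype.card_fin, smul_eq_mul]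
      _ ≤ _ := Finset.sum_le_sum fun j _ => hmono (show 2 * c + 1 ≤ s - 1 + 1 + j by omega)
  have a1 : (n + c).choose c * n = (n + c).choose (c + 1) * (c + 1) := by
    have h1 := Nat.choose_succ_right_eq (n + c) c
    have e : n + c - c = n := by omega
    rw [e] at h1
    exact h1.symm
  have a2 : (n + 2 * c).choose (2 * c + 1) * (2 * c + 1) = (n + 2 * c).choose (2 * c) * n := by
    have h1 := Nat.choose_succ_right_eq (n + 2 * c) (2 * c)
    have e : n + 2 * c - 2 * c = n := by omega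
    rwa [e] at h1
  have e1 : n + (c + 1) - 1 = n + c := by omega
  have e2 : n + (2 * c + 1) - 1 = n + 2 * c := by omega
  have e4 : (n + (c + c)).choose n = (n + 2 * c).choose (2 * c) := by
    rw [← two_mul, Nat.add_comm n, Nat.choose_symm_add]
  rw [e1]
  rw [e2] at b2
  rw [e4] at h
  have h0 := (Nat.mul_le_mul b1 b2).trans h
  set X := (n + 2 * c - 1).choose (2 * c)
  set Y := (n + 2 * c).choose (2 * c + 1)
  set Z := (n + 2 * c).choose (2 * c)
  set V := (n + c).choose c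
  set W := (n + c).choose (c + 1)
  have hZ : 0 < Z := Nat.choose_pos (by omega)
  have k1 : (n * X) * ((c + 1) * Z) ≤ ((2 * c + 1) * W) * ((c + 1) * Z) := by
    calc (n * X) * ((c + 1) * Z) = X * (c + 1) * (Z * n) := by ring
      _ = X * (c + 1) * (Y * (2 * c + 1)) := by rw [a2]
      _ = (X * ((c + 1) * Y)) * (2 * c + 1) := by ring
      _ ≤ ((n * V) * Z) * (2 * c + 1) := Nat.mul_le_mul_right _ h0
      _ = (V * n) * (Z * (2 * c + 1)) := by ring
      _ = (W * (c + 1)) * (Z * (2 * c + 1)) := by rw [a1]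
      _ = _ := by ring
  exact Nat.le_of_mul_le_mul_right k1 (by positivity)

end Pool.Agent.H72.Rigid
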