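import Pool.Agent.H72.Rigid.Count
import Pool.Agent.H72.Rigid.Krull

/-!
# Rigid local algebras: the inequality with all degrees (helper72)
-/

set_option autoImplicit false

namespace Pool.Agent.H72.Rigid

open Module MvPolynomial Pool.Agent.H12.Rig

variable {K : Type*} [Field K] {n : ℕ}

/-- polynomials with components in the degrees `s, ..., s + e - 1` only -/
abbrev U (K : Type*) [Field K] (n s e : ℕ) : Type _ := (j : Fin e) → S K n (s + j)

/-- the value of such a family -/
noncomputable def uval (K : Type*) [Field K] (n s e : ℕ) : U K n s e →ₗ[K] MvPolynomial (Fin n) K :=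
  ∑ j : Fin e, (S K n (s + j)).subtype ∘ₗ LinearMap.proj j

theorem uval_apply (s e : ℕ) (g : U K n s e) :
    uval K n s e g = ∑ j : Fin e, (g j : MvPolynomial (Fin n) K) := by
  unfold uval
  rw [LinearMap.sum_apply]
  rfl

theorem uval_mem (s e : ℕ) (g : U K n s e) : uval K n s e g ∈ mm K n ^ s := by
  rw [uval_apply]
  exact Ideal.sum_mem _ fun j _ => form_mem_pow (by omega) (g j).2

theorem comp_uval (s e : ℕ) (g : U K n s e) (j : Fin e) :
    homogeneousComponent (s + j) (uval K n s e g) = (g j : MvPolynomial (Fin n) K) := by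
  rw [uval_apply, map_sum, Finset.sum_eq_single j]
  · exact comp_self (g j).2
  · intro i _ hij
    rw [comp_of_mem (g i).2, if_neg]
    intro h
    exact hij (Fin.ext (by omega))
  · intro h
    exact absurd (Finset.mem_univ j) h

theorem finrank_U (s e : ℕ) : finrank K (U K n s e) = ∑ j : Fin e, (n + (s + j) - 1).choose (s + j) := by
  rw [Module.finrank_pi_fintype]
  exact Finset.sum_congr rfl fun j _ => finrank_S (s + (j : ℕ))

/-- the map to the quotient -/
noncomputable def W (I : Ideal (MvPolynomial (Fin n) K)) (s e : ℕ) :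
    U K n s e →ₗ[K] MvPolynomial (Fin n) K ⧸ I :=
  (Ideal.Quotient.mkₐ K I).toLinearMap ∘ₗ uval K n s e

theorem W_apply (I : Ideal (MvPolynomial (Fin n) K)) (s e : ℕ) (h : U K n s e) :
    W I s e h = Ideal.Quotient.mk I (uval K n s e h) := rfl

/-- a subspace of `m ^ s` modulo the ideal -/
theorem sub_le (I : Ideal (MvPolynomial (Fin n) K)) (s c : ℕ)
    (h1 : mm K n ^ (s + 1 + c) ≤ I) (M : Submodule K (MvPolynomial (Fin n) K ⧸ I))
    (hM : ∀ u ∈ M, ∃ h ∈ mm K n ^ s, Ideal.Quotient.mk I h = u) :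
    finrank K M ≤ finrank K (socle I) * (n + c).choose c := by
  have := quot_finite I h1
  obtain ⟨π, hπ⟩ := LinearMap.exists_leftInverse_of_injective (socle I).subtype
    (Submodule.ker_subtype _)
  have hπ2 : ∀ u : socle I, π (u : MvPolynomial (Fin n) K ⧸ I) = u := fun u =>
    LinearMap.congr_fun hπ u
  let Θ : M →ₗ[K] (T K n c →ₗ[K] socle I) :=
    ((LinearMap.mul K (MvPolynomial (Fin n) K ⧸ I)).flip.compl₁₂ M.subtype
      ((Ideal.Quotient.mkₐ K I).toLinearMap ∘ₗ val K n c)).compr₂ π
  have hΘ : ∀ u g, Θ u g = π (Ideal.Quotient.mk I (val K n c g) *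
      (u : MvPolynomial (Fin n) K ⧸ I)) := fun h g => rfl
  have hinj : Function.Injective Θ := by
    refine (injective_iff_map_eq_zero Θ).2 ?_
    intro u hu
    by_contra hne
    obtain ⟨h, hh, hhu⟩ := hM u u.2
    have h3 : h ∉ I := by
      intro h4
      rw [Ideal.Quotient.eq_zero_iff_mem.2 h4] at hhu
      exact hne (Subtype.ext hhu.symm)
    obtain ⟨g, hg, hgs⟩ := exists_socle I h1 h3
    obtain ⟨g', hg'⟩ := trunc_exists c g
    have h4 : Ideal.Quotient.mk I (g * h) =
        Ideal.Quotient.mk I (val K n c g' * h) := by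
      rw [Ideal.Quotient.eq, ← sub_mul]
      refine h1 ?_
      have h5 := Ideal.mul_mem_mul hg' hh
      rw [← pow_add] at h5
      have e : c + 1 + s = s + 1 + c := by omega
      rwa [e] at h5
    have h5 : Θ u g' = 0 := by rw [hu]; rfl
    rw [hΘ, ← hhu, ← map_mul, ← h4] at h5
    have h6 := hπ2 ⟨_, hgs⟩
    rw [h5] at h6
    have h7 := congrArg Subtype.val h6
    exact hg (Ideal.Quotient.eq_zero_iff_mem.1 h7.symm)
  have h3 := LinearMap.finrank_le_finrank_of_injective hinj
  rw [Module.finrank_linearMap, finrank_T, mul_comm] at h3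
  exact h3

/-- the image is small -/
theorem range_W_le (I : Ideal (MvPolynomial (Fin n) K)) (s c e : ℕ)
    (h1 : mm K n ^ (s + 1 + c) ≤ I) :
    finrank K (LinearMap.range (W I s e)) ≤ finrank K (socle I) * (n + c).choose c := by
  refine sub_le I s c h1 _ ?_
  rintro _ ⟨h, rfl⟩
  exact ⟨_, uval_mem s e h, rfl⟩

/-- the kernel is small -/
theorem ker_W_le (I : Ideal (MvPolynomial (Fin n) K)) (s c : ℕ)
    (h2 : I ≤ mm K n ^ (s + 1)) :
    finrank K (LinearMap.ker (W I s (c + 2))) ≤ finrank K (Q I) * (n + c).choose c := by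
  obtain ⟨f, hJ'⟩ := exists_gens I
  let J : Ideal (MvPolynomial (Fin n) K) :=
    Ideal.span (Set.range fun j => (f j : MvPolynomial (Fin n) K))
  have hJ : I ≤ J ⊔ mm K n * I := hJ'
  have hJk : ∀ k, I ≤ J ⊔ mm K n ^ k * I := by
    intro k
    induction k with
    | zero => rw [pow_zero, one_mul]; exact le_sup_right
    | succ k ih =>
      refine ih.trans (sup_le le_sup_left ?_)
      refine (Ideal.mul_mono_right hJ).trans ?_
      rw [Ideal.mul_sup]
      refine sup_le (le_trans Ideal.mul_le_right le_sup_left) ?_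
      rw [← mul_assoc, ← pow_succ]
      exact le_sup_right
  let Ψ : (Fin (finrank K (Q I)) → T K n c) →ₗ[K] U K n s (c + 2) :=
    LinearMap.pi fun i => LinearMap.codRestrict (S K n (s + i)) (homogeneousComponent (s + i) ∘ₗ
      (∑ j, LinearMap.mulRight K (f j : MvPolynomial (Fin n) K) ∘ₗ val K n c ∘ₗ
        LinearMap.proj j)) (fun g => homogeneousComponent_mem _ _)
  have hΨ : ∀ g i, (Ψ g i : MvPolynomial (Fin n) K) =
      homogeneousComponent (s + i) (∑ j, val K n c (g j) * (f j : MvPolynomial (Fin n) K)) := by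
    intro g i
    show homogeneousComponent (s + i) ((∑ j, LinearMap.mulRight K
      (f j : MvPolynomial (Fin n) K) ∘ₗ val K n c ∘ₗ LinearMap.proj j :
        (Fin (finrank K (Q I)) → T K n c) →ₗ[K] MvPolynomial (Fin n) K) g) = _
    rw [LinearMap.sum_apply]
    rfl
  have hle : LinearMap.ker (W I s (c + 2)) ≤ LinearMap.range Ψ := by
    intro h hh
    have hhI : uval K n s (c + 2) h ∈ I := by
      have h3 : W I s (c + 2) h = 0 := hh
      rw [W_apply, Ideal.Quotient.eq_zero_iff_mem] at h3
      exact h3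
    obtain ⟨u, hu, r, hr, hur⟩ := Submodule.mem_sup.1 (hJk (c + 1) hhI)
    obtain ⟨p, hp⟩ := (Ideal.mem_span_range_iff_exists_fun).1 hu
    choose g hg using fun j => trunc_exists c (p j)
    refine ⟨g, ?_⟩
    have h4 : uval K n s (c + 2) h -
        ∑ j, val K n c (g j) * (f j : MvPolynomial (Fin n) K) ∈ mm K n ^ (c + 1 + (s + 1)) := by
      have h5 : uval K n s (c + 2) h -
          ∑ j, val K n c (g j) * (f j : MvPolynomial (Fin n) K) =
          ∑ j, (p j - val K n c (g j)) * (f j : MvPolynomial (Fin n) K) + r := by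
        rw [← hur, ← hp]
        simp only [sub_mul, Finset.sum_sub_distrib]
        ring
      rw [h5]
      refine Ideal.add_mem _ (Ideal.sum_mem _ fun j _ => ?_) ?_
      · have h6 := Ideal.mul_mem_mul (hg j) (h2 (f j).2)
        rwa [← pow_add] at h6
      · have h6 : mm K n ^ (c + 1) * I ≤ mm K n ^ (c + 1) * mm K n ^ (s + 1) :=
          Ideal.mul_mono_right h2
        rw [← pow_add] at h6
        exact h6 hr
    funext i
    ext1
    rw [hΨ]
    have h5 := comp_eq_zero_of_mem (k := s + i) (by omega) h4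
    rw [map_sub, comp_uval, sub_eq_zero] at h5
    exact h5.symm
  have h3 : finrank K (LinearMap.ker (W I s (c + 2))) ≤ finrank K (LinearMap.range Ψ) :=
    Submodule.finrank_mono hle
  have h4 := LinearMap.finrank_range_le Ψ
  rw [Module.finrank_pi_fintype, Finset.sum_const, Finset.card_univ, Fintype.card_fin,
    smul_eq_mul, finrank_T] at h4
  exact h3.trans h4

theorem le_range_W (I : Ideal (MvPolynomial (Fin n) K)) (s e : ℕ)
    (h2 : I ≤ mm K n ^ (s + 1)) :
    (n + s - 1).choose s ≤ finrank K (LinearMap.range (W I s (e + 1))) := by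
  let L : S K n (s + ((0 : Fin (e + 1)) : ℕ)) →ₗ[K] U K n s (e + 1) :=
    LinearMap.single K (fun j : Fin (e + 1) => S K n (s + (j : ℕ))) (0 : Fin (e + 1))
  have hL : ∀ h, uval K n s (e + 1) (L h) = (h : MvPolynomial (Fin n) K) := by
    intro h
    rw [uval_apply, Finset.sum_eq_single (0 : Fin (e + 1))]
    · show ((Pi.single (0 : Fin (e + 1)) h : U K n s (e + 1)) 0 : MvPolynomial (Fin n) K) = _
      rw [Pi.single_eq_same]
    · intro i _ hi
      show ((Pi.single (0 : Fin (e + 1)) h : U K n s (e + 1)) i : MvPolynomial (Fin n) K) = 0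
      rw [Pi.single_eq_of_ne hi]
      rfl
    · intro h
      exact absurd (Finset.mem_univ _) h
  let L' : S K n (s + ((0 : Fin (e + 1)) : ℕ)) →ₗ[K] LinearMap.range (W I s (e + 1)) :=
    (W I s (e + 1)).rangeRestrict ∘ₗ L
  have hinj : Function.Injective L' := by
    refine (injective_iff_map_eq_zero L').2 ?_
    intro h hh
    have h3 : W I s (e + 1) (L h) = 0 := congrArg Subtype.val hh
    rw [W_apply, hL, Ideal.Quotient.eq_zero_iff_mem] at h3
    exact Subtype.ext (form_pow_zero (by rw [Fin.val_zero]; exact Nat.lt_succ_self s) h.2 (h2 h3))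
  have h3 := LinearMap.finrank_le_finrank_of_injective hinj
  rw [finrank_S] at h3
  exact h3

theorem le_ker_W (I : Ideal (MvPolynomial (Fin n) K)) (s e : ℕ)
    (h1 : mm K n ^ (s + e) ≤ I) :
    (n + (s + e) - 1).choose (s + e) ≤ finrank K (LinearMap.ker (W I s (e + 1))) := by
  let L : S K n (s + ((Fin.last e : Fin (e + 1)) : ℕ)) →ₗ[K] U K n s (e + 1) :=
    LinearMap.single K (fun j : Fin (e + 1) => S K n (s + (j : ℕ))) (Fin.last e)
  have hL : ∀ h, uval K n s (e + 1) (L h) = (h : MvPolynomial (Fin n) K) := by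
    intro h
    rw [uval_apply, Finset.sum_eq_single (Fin.last e)]
    · show ((Pi.single (Fin.last e) h : U K n s (e + 1)) (Fin.last e) :
        MvPolynomial (Fin n) K) = _
      rw [Pi.single_eq_same]
    · intro i _ hi
      show ((Pi.single (Fin.last e) h : U K n s (e + 1)) i : MvPolynomial (Fin n) K) = 0
      rw [Pi.single_eq_of_ne hi]
      rfl
    · intro h
      exact absurd (Finset.mem_univ _) h
  have hmem : ∀ h, L h ∈ LinearMap.ker (W I s (e + 1)) := by
    intro h
    rw [LinearMap.mem_ker, W_apply, hL, Ideal.Quotient.eq_zero_iff_mem]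
    exact h1 (form_mem_pow (by rw [Fin.val_last]) h.2)
  have hinj : Function.Injective (L.codRestrict _ hmem) := by
    refine (injective_iff_map_eq_zero _).2 ?_
    intro h hh
    have h3 : L h = 0 := congrArg Subtype.val hh
    have h4 := hL h
    rw [h3, map_zero] at h4
    exact Subtype.ext h4.symm
  have h3 := LinearMap.finrank_le_finrank_of_injective hinj
  rw [finrank_S, Fin.val_last] at h3
  exact h3

/-- **The inequality.** -/
theorem sharp_ineq (hn : 1 ≤ n) (I : Ideal (MvPolynomial (Fin n) K)) (s c : ℕ)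
    (h1 : mm K n ^ (s + 1 + c) ≤ I) (h2 : I ≤ mm K n ^ (s + 1)) :
    (n + s - 1).choose s *
        ∑ j : Fin (c + 1), (n + (s + 1 + j) - 1).choose (s + 1 + j) ≤
      (n + c).choose c ^ 2 * (n * (n + c).choose c + finrank K (T1 I)) := by
  have := quot_finite I h1
  have a1 := count_le I
  have a2 := range_le I s c h1 h2
  have a3 := ker_W_le I s c h2
  have a4 := range_W_le I s c (c + 2) h1
  have a5 := le_range_W I s (c + 1) h2
  have a6 := le_ker_W I s (c + 1) (by
    have e : s + (c + 1) = s + 1 + c := by omega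
    rwa [e])
  have a7 := LinearMap.finrank_range_add_finrank_ker (W I s (c + 2))
  rw [finrank_U] at a7
  have a8 : (n + s - 1).choose s ≤ (n + (s + (c + 1)) - 1).choose (s + (c + 1)) :=
    nm_mono hn (by omega)
  rw [Fin.sum_univ_succ] at a7
  have a9 : ∑ i : Fin (c + 1), (n + (s + ((Fin.succ i : Fin (c + 2)) : ℕ)) - 1).choose
      (s + ((Fin.succ i : Fin (c + 2)) : ℕ)) =
      ∑ j : Fin (c + 1), (n + (s + 1 + j) - 1).choose (s + 1 + j) := by
    refine Finset.sum_congr rfl fun j _ => ?_
    have e : s + ((Fin.succ j : Fin (c + 2)) : ℕ) = s + 1 + j := by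
      rw [Fin.val_succ]; omega
    rw [e]
  rw [a9] at a7
  simp only [Fin.val_zero, add_zero] at a7
  set P := (n + c).choose c
  set A0 := (n + s - 1).choose s
  set B0 := ∑ j : Fin (c + 1), (n + (s + 1 + j) - 1).choose (s + 1 + j)
  set D1 := finrank K (LinearMap.range (W I s (c + 2)))
  set D2 := finrank K (LinearMap.ker (W I s (c + 2)))
  have b1 : A0 * B0 ≤ D1 * D2 := by
    have a5' : A0 ≤ D1 := a5
    have a6' : A0 ≤ D2 := a8.trans a6
    obtain ⟨x, hx⟩ := Nat.exists_eq_add_of_le a5'
    obtain ⟨y, hy⟩ := Nat.exists_eq_add_of_le a6'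
    have hB : B0 = x + (A0 + y) := by omega
    rw [hB, hx, hy]
    nlinarith [Nat.zero_le (x * y)]
  calc A0 * B0 ≤ D1 * D2 := b1
    _ ≤ (finrank K (socle I) * P) * (finrank K (Q I) * P) := Nat.mul_le_mul a4 a3
    _ = P ^ 2 * (finrank K (Q I) * finrank K (socle I)) := by ring
    _ ≤ P ^ 2 * (n * P + finrank K (T1 I)) := Nat.mul_le_mul_left _ (by omega)

end Pool.Agent.H72.Rigid
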